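import Mathlib

section

set_option autoImplicit false
open Set Filter Topology
open scoped RealInnerProductSpace

namespace Pool.Agent.MP_5f4cdd_gt.T4

variable {E : Type*} [NormedAddCommGroup E] [InnerProductSpace ℝ E]

/-- `p` is the proximal map of `v` restricted to `K`. -/
def IsProx (K : Set E) (v : E → ℝ) (p : E → E) : Prop :=
  ∀ w, p w ∈ K ∧ ∀ x ∈ K, ⟪x - p w, w - p w⟫ ≤ v x - v (p w)

theorem le_of_forall_small {a b c : ℝ} (hc : 0 ≤ c)
    (h : ∀ t : ℝ, 0 < t → t ≤ 1 → a ≤ b + t * c) : a ≤ b := by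
  refine le_of_forall_pos_le_add fun ε hε => ?_
  have h1 : 0 < min 1 (ε / (c + 1)) := lt_min one_pos (by positivity)
  have h2 := h _ h1 (min_le_left _ _)
  have h3 : min 1 (ε / (c + 1)) * c ≤ ε := by
    calc min 1 (ε / (c + 1)) * c ≤ ε / (c + 1) * (c + 1) :=
          mul_le_mul (min_le_right _ _) (by linarith) hc (by positivity)
      _ = ε := by field_simp
  linarith

theorem exists_isProx {K : Set E} {v : E → ℝ} (hK : IsCompact K) (hne : K.Nonempty)
    (hv : ConvexOn ℝ K v) (hc : ContinuousOn v K) : ∃ p, IsProx K v p := by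
  have key : ∀ w : E, ∃ q ∈ K, ∀ x ∈ K, ⟪x - q, w - q⟫ ≤ v x - v q := by
    intro w
    have hcont : ContinuousOn (fun x => ⟪x, w⟫ - v x - ‖x‖ ^ 2 / 2) K :=
      ((by fun_prop : Continuous fun x : E => ⟪x, w⟫).continuousOn.sub hc).sub
        (by fun_prop : Continuous fun x : E => ‖x‖ ^ 2 / 2).continuousOn
    obtain ⟨q, hq, hmax⟩ := hK.exists_isMaxOn hne hcont
    refine ⟨q, hq, fun x hx => ?_⟩
    refine le_of_forall_small (c := ‖x - q‖ ^ 2 / 2) (by positivity) fun t ht ht1 => ?_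
    have hmem : (1 - t) • q + t • x ∈ K := hv.1 hq hx (by linarith) ht.le (by ring)
    have h1 := hmax hmem
    have h2 := hv.2 hq hx (by linarith : 0 ≤ 1 - t) ht.le (by ring)
    simp only [mem_setOf_eq, smul_eq_mul] at h1 h2
    have e1 : (1 - t) • q + t • x = q + t • (x - q) := by
      rw [smul_sub, sub_smul, one_smul]; abel
    rw [e1] at h1 h2
    rw [norm_add_sq_real, inner_add_left, inner_smul_left, inner_smul_right, norm_smul,
      mul_pow, Real.norm_eq_abs, sq_abs] at h1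
    simp only [conj_trivial] at h1
    have e2 : ⟪x - q, w - q⟫ = ⟪x - q, w⟫ - ⟪q, x - q⟫ := by
      rw [inner_sub_right, real_inner_comm q]
    rw [e2]
    have h3 : t * (⟪x - q, w⟫ - ⟪q, x - q⟫) ≤ t * (v x - v q + t * (‖x - q‖ ^ 2 / 2)) := by
      nlinarith
    exact le_of_mul_le_mul_left h3 ht
  choose p hp hp' using key
  exact ⟨p, fun w => ⟨hp w, hp' w⟩⟩

namespace IsProx

variable {K : Set E} {v : E → ℝ} {p : E → E}

theorem mem (h : IsProx K v p) (w : E) : p w ∈ K := (h w).1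

theorem firm' (h : IsProx K v p) {w w' q : E} (hq : q ∈ K)
    (hq' : ∀ x ∈ K, ⟪x - q, w' - q⟫ ≤ v x - v q) : ‖p w - q‖ ^ 2 ≤ ⟪p w - q, w - w'⟫ := by
  have h1 := (h w).2 q hq
  have h2 := hq' (p w) (h w).1
  have e : ⟪p w - q, w - w'⟫ - ‖p w - q‖ ^ 2 =
      -(⟪q - p w, w - p w⟫ + ⟪p w - q, w' - q⟫) := by
    rw [← real_inner_self_eq_norm_sq]
    simp only [inner_sub_left, inner_sub_right]
    rw [real_inner_comm q (p w)]
    ring
  linarith

theorem firm (h : IsProx K v p) (w w' : E) : ‖p w - p w'‖ ^ 2 ≤ ⟪p w - p w', w - w'⟫ :=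
  h.firm' (h w').1 (h w').2

theorem eq_of (h : IsProx K v p) {w q : E} (hq : q ∈ K)
    (hq' : ∀ x ∈ K, ⟪x - q, w - q⟫ ≤ v x - v q) : p w = q := by
  have := h.firm' (w := w) hq hq'
  rw [sub_self, inner_zero_right] at this
  have h0 : ‖p w - q‖ = 0 := by nlinarith [norm_nonneg (p w - q)]
  exact sub_eq_zero.1 (norm_eq_zero.1 h0)

theorem norm_sub_le (h : IsProx K v p) (w w' : E) : ‖p w - p w'‖ ≤ ‖w - w'‖ := by
  have h1 := h.firm w w'
  have h2 := real_inner_le_norm (p w - p w') (w - w')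
  by_contra hc
  push Not at hc
  nlinarith [norm_nonneg (w - w'), norm_nonneg (p w - p w')]

theorem lipschitz (h : IsProx K v p) : LipschitzWith 1 p :=
  LipschitzWith.of_dist_le_mul fun w w' => by
    simpa [dist_eq_norm] using h.norm_sub_le w w'

theorem continuous (h : IsProx K v p) : Continuous p := h.lipschitz.continuous

theorem norm_refl_le (h : IsProx K v p) (w w' : E) :
    ‖(2 : ℝ) • (p w - p w') - (w - w')‖ ≤ ‖w - w'‖ := by
  have h1 := h.firm w w'
  have h2 : ‖(2 : ℝ) • (p w - p w') - (w - w')‖ ^ 2 ≤ ‖w - w'‖ ^ 2 := by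
    rw [norm_sub_sq_real, norm_smul, inner_smul_left, mul_pow]
    simp only [conj_trivial, Real.norm_ofNat]
    nlinarith
  exact (pow_le_pow_iff_left₀ (norm_nonneg _) (norm_nonneg _) two_ne_zero).1 h2

theorem norm_co_le (h : IsProx K v p) (w w' : E) :
    ‖(w - p w) - (w' - p w')‖ ≤ ‖w - w'‖ := by
  have h1 := h.firm w w'
  have e : (w - p w) - (w' - p w') = (w - w') - (p w - p w') := by abel
  have h2 : ‖(w - p w) - (w' - p w')‖ ^ 2 ≤ ‖w - w'‖ ^ 2 := by
    rw [e, norm_sub_sq_real, real_inner_comm]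
    nlinarith [sq_nonneg ‖p w - p w'‖]
  exact (pow_le_pow_iff_left₀ (norm_nonneg _) (norm_nonneg _) two_ne_zero).1 h2

theorem lipschitz_co (h : IsProx K v p) : LipschitzWith 1 (fun w => w - p w) :=
  LipschitzWith.of_dist_le_mul fun w w' => by
    simpa [dist_eq_norm] using h.norm_co_le w w'

/-- fibres of a proximal map are convex -/
theorem fibre (h : IsProx K v p) {w w' : E} (he : p w = p w') {t : ℝ} (ht : 0 ≤ t) (ht1 : t ≤ 1) :
    p (w + t • (w' - w)) = p w := by
  refine h.eq_of (h w).1 fun x hx => ?_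
  have h1 := (h w).2 x hx
  have h2 := (h w').2 x hx
  rw [← he] at h2
  have e : w + t • (w' - w) - p w = (1 - t) • (w - p w) + t • (w' - p w) := by
    simp only [smul_sub, sub_smul, one_smul]; abel
  rw [e, inner_add_right, inner_smul_right, inner_smul_right]
  nlinarith

theorem max_le (h : IsProx K v p) (w : E) {x : E} (hx : x ∈ K) :
    ⟪x, w⟫ - v x - ‖x‖ ^ 2 / 2 ≤ ⟪p w, w⟫ - v (p w) - ‖p w‖ ^ 2 / 2 := by
  have h1 := (h w).2 x hx
  have h2 : 0 ≤ ‖x - p w‖ ^ 2 := by positivity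
  rw [norm_sub_sq_real] at h2
  simp only [inner_sub_left, inner_sub_right, real_inner_self_eq_norm_sq] at h1
  nlinarith

theorem hasFDerivAt_pot (h : IsProx K v p) (w : E) :
    HasFDerivAt (fun w => ⟪p w, w⟫ - v (p w) - ‖p w‖ ^ 2 / 2) (innerSL ℝ (p w)) w := by
  rw [hasFDerivAt_iff_isLittleO_nhds_zero]
  refine Asymptotics.IsBigO.trans_isLittleO (g := fun d : E => ‖d‖ ^ 2) ?_ ?_
  · refine Asymptotics.IsBigO.of_bound 1 (Eventually.of_forall fun d => ?_)
    have h1 := h.max_le (w + d) (h w).1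
    have h2 := h.max_le w (h (w + d)).1
    have h3 := h.norm_sub_le (w + d) w
    have h4 := real_inner_le_norm (p (w + d) - p w) d
    rw [add_sub_cancel_left] at h3
    simp only [inner_add_right, inner_sub_left] at h1 h2 h4
    simp only [innerSL_apply_apply, inner_add_right, Real.norm_eq_abs, one_mul]
    rw [abs_of_nonneg (by positivity : (0 : ℝ) ≤ ‖d‖ ^ 2), abs_le]
    have h5 : ‖p (w + d) - p w‖ * ‖d‖ ≤ ‖d‖ ^ 2 := by
      rw [sq]; exact mul_le_mul_of_nonneg_right h3 (norm_nonneg _)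
    constructor <;> nlinarith [sq_nonneg ‖d‖]
  · simpa using (Asymptotics.isLittleO_norm_pow_id (E' := E) one_lt_two)

theorem symm (h : IsProx K v p) {w : E} {P : E →L[ℝ] E} (hP : HasFDerivAt p P w) (a b : E) :
    ⟪P a, b⟫ = ⟪P b, a⟫ := by
  have h1 : HasFDerivAt (fun y => innerSL ℝ (p y)) ((innerSL ℝ (E := E)).comp P) w :=
    (innerSL ℝ (E := E)).hasFDerivAt.comp w hP
  have := second_derivative_symmetric_of_eventually_of_real
    (Eventually.of_forall fun y => h.hasFDerivAt_pot y) h1 a b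
  simpa using this

theorem firm_deriv (h : IsProx K v p) {w : E} {P : E →L[ℝ] E} (hP : HasFDerivAt p P w) (a : E) :
    ‖P a‖ ^ 2 ≤ ⟪P a, a⟫ := by
  have h1 : HasDerivAt (fun t : ℝ => p (w + t • a)) (P a) 0 := by
    have h2 : HasDerivAt (fun t : ℝ => w + t • a) a 0 := by
      simpa using ((hasDerivAt_id (0 : ℝ)).smul_const a).const_add w
    have h3 : HasFDerivAt p P (w + (0 : ℝ) • a) := by simpa using hP
    exact h3.comp_hasDerivAt (0 : ℝ) h2
  have h2 := h1.tendsto_slope_zero_right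
  have h3 : Tendsto (fun t : ℝ => ‖t⁻¹ • (p (w + (0 + t) • a) - p (w + (0 : ℝ) • a))‖ ^ 2)
      (𝓝[>] 0) (𝓝 (‖P a‖ ^ 2)) := (h2.norm).pow 2
  have h4 : Tendsto (fun t : ℝ => ⟪t⁻¹ • (p (w + (0 + t) • a) - p (w + (0 : ℝ) • a)), a⟫)
      (𝓝[>] 0) (𝓝 ⟪P a, a⟫) := h2.inner tendsto_const_nhds
  refine le_of_tendsto_of_tendsto h3 h4 ?_
  filter_upwards [self_mem_nhdsWithin] with t ht
  have ht : 0 < t := ht
  have h5 := h.firm (w + t • a) w
  rw [add_sub_cancel_left, inner_smul_right] at h5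
  simp only [zero_add, zero_smul, add_zero]
  rw [norm_smul, inner_smul_left, mul_pow, Real.norm_eq_abs, sq_abs]
  simp only [conj_trivial]
  have : t⁻¹ ^ 2 * (t * ⟪p (w + t • a) - p w, a⟫) = t⁻¹ * ⟪p (w + t • a) - p w, a⟫ := by
    field_simp
  rw [← this]
  exact mul_le_mul_of_nonneg_left h5 (by positivity)

theorem isPositive (h : IsProx K v p) {w : E} {P : E →L[ℝ] E} (hP : HasFDerivAt p P w) :
    (P : E →ₗ[ℝ] E).IsPositive := by
  refine ⟨fun a b => ?_, fun a => ?_⟩
  · simp only [ContinuousLinearMap.coe_coe]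
    rw [h.symm hP a b, real_inner_comm]
  · have := h.firm_deriv hP a
    simp only [ContinuousLinearMap.coe_coe, RCLike.re_to_real]
    nlinarith [sq_nonneg ‖P a‖]

theorem isPositive_co (h : IsProx K v p) {w : E} {P : E →L[ℝ] E} (hP : HasFDerivAt p P w) :
    (1 - (P : E →ₗ[ℝ] E)).IsPositive := by
  refine ⟨fun a b => ?_, fun a => ?_⟩
  · simp only [LinearMap.sub_apply, Module.End.one_apply, ContinuousLinearMap.coe_coe,
      inner_sub_left, inner_sub_right]
    rw [h.symm hP a b, real_inner_comm a (P b)]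
  · have h1 := h.firm_deriv hP a
    have h2 := real_inner_le_norm (P a) a
    simp only [LinearMap.sub_apply, Module.End.one_apply, ContinuousLinearMap.coe_coe,
      inner_sub_left, RCLike.re_to_real, real_inner_self_eq_norm_sq]
    have h3 : ‖P a‖ ≤ ‖a‖ := by
      by_contra hc
      push Not at hc
      nlinarith [norm_nonneg a, norm_nonneg (P a)]
    nlinarith [norm_nonneg a, norm_nonneg (P a)]

end IsProx

end Pool.Agent.MP_5f4cdd_gt.T4

end

section

set_option autoImplicit false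
open Set Filter Topology MeasureTheory
open scoped ENNReal NNReal

namespace Pool.Agent.MP_5f4cdd_gt.T4

variable {E : Type*} [NormedAddCommGroup E] [NormedSpace ℝ E] [FiniteDimensional ℝ E]
  [MeasurableSpace E] [BorelSpace E] (μ : Measure E) [μ.IsAddHaarMeasure]

theorem lip_image_null {C : ℝ≥0} {f : E → E} (hf : LipschitzWith C f) {N : Set E}
    (hN : μ N = 0) : μ (f '' N) = 0 := by
  have h1 : μ ≪ μH[Module.finrank ℝ E] := Measure.absolutelyContinuous_isAddHaarMeasure _ _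
  have h2 : (μH[Module.finrank ℝ E] : Measure E) ≪ μ :=
    Measure.absolutelyContinuous_isAddHaarMeasure _ _
  apply h1
  have h3 := hf.hausdorffMeasure_image_le (d := Module.finrank ℝ E) (by positivity) N
  rw [h2 hN, mul_zero] at h3
  exact le_antisymm h3 zero_le

/-- The absolute Jacobian as an extended nonnegative real. -/
noncomputable def jac (f : E → E) (x : E) : ℝ≥0∞ := ENNReal.ofReal |(fderiv ℝ f x).det|

theorem measurable_jac (f : E → E) : Measurable (jac f) := by
  unfold jac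
  exact ENNReal.measurable_ofReal.comp
    (continuous_abs.measurable.comp
      (ContinuousLinearMap.continuous_det.measurable.comp (measurable_fderiv ℝ f)))

theorem area_upper {f : E → E} (hf : Measurable f) {U : Set E} (hU : MeasurableSet U)
    (hd : ∀ x ∈ U, DifferentiableAt ℝ f x) {g : E → ℝ≥0∞} (hg : Measurable g) :
    ∫⁻ y in f '' U, g y ∂μ ≤ ∫⁻ x in U, jac f x * g (f x) ∂μ := by
  refine Measurable.ennreal_induction
    (motive := fun g => ∫⁻ y in f '' U, g y ∂μ ≤ ∫⁻ x in U, jac f x * g (f x) ∂μ) ?_ ?_ ?_ hg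
  · intro c s hs
    rw [lintegral_indicator hs, setLIntegral_const, Measure.restrict_apply hs]
    have hm : MeasurableSet (f ⁻¹' s ∩ U) := (hf hs).inter hU
    have h1 : μ (s ∩ f '' U) ≤ ∫⁻ x in f ⁻¹' s ∩ U, jac f x ∂μ := by
      rw [← image_preimage_inter]
      exact addHaar_image_le_lintegral_abs_det_fderiv μ hm
        fun x hx => (hd x hx.2).hasFDerivAt.hasFDerivWithinAt
    have h2 : ∀ x, jac f x * s.indicator (fun _ => c) (f x) =
        (f ⁻¹' s).indicator (fun x => c * jac f x) x := by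
      intro x
      by_cases hx : f x ∈ s
      · rw [indicator_of_mem hx, indicator_of_mem (by exact hx), mul_comm]
      · rw [indicator_of_notMem hx, indicator_of_notMem (by exact hx), mul_zero]
    simp_rw [h2]
    rw [lintegral_indicator (hf hs), Measure.restrict_restrict (hf hs),
      lintegral_const_mul _ (measurable_jac f)]
    gcongr
  · intro g₁ g₂ _ h₁ h₂ i₁ i₂
    simp only [Pi.add_apply, mul_add]
    rw [lintegral_add_left h₁, lintegral_add_left (f := fun x => jac f x * g₁ (f x))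
      ((measurable_jac f).mul (h₁.comp hf))]
    exact add_le_add i₁ i₂
  · intro g hg hmono ih
    simp only [ENNReal.mul_iSup]
    rw [lintegral_iSup hg hmono, lintegral_iSup (f := fun n x => jac f x * g n (f x))
      (fun n => (measurable_jac f).mul ((hg n).comp hf))
      (fun a b hab x => by dsimp only; gcongr; exact hmono hab _)]
    exact iSup_mono ih

omit [MeasurableSpace E] [BorelSpace E] in
theorem det_eq_zero_of_segment {f : E → E} {x d : E} (hf : DifferentiableAt ℝ f x) (hd : d ≠ 0)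
    (h : ∀ t : ℝ, 0 ≤ t → t ≤ 1 → f (x + t • d) = f x) : (fderiv ℝ f x).det = 0 := by
  have h1 : HasDerivAt (fun t : ℝ => f (x + t • d)) (fderiv ℝ f x d) 0 := by
    have h2 : HasDerivAt (fun t : ℝ => x + t • d) d 0 := by
      simpa using ((hasDerivAt_id (0 : ℝ)).smul_const d).const_add x
    have h3 : HasFDerivAt f (fderiv ℝ f x) (x + (0 : ℝ) • d) := by simpa using hf.hasFDerivAt
    exact h3.comp_hasDerivAt (0 : ℝ) h2
  have h2 := h1.tendsto_slope_zero_right
  have h3 : Tendsto (fun t : ℝ => t⁻¹ • (f (x + (0 + t) • d) - f (x + (0 : ℝ) • d))) (𝓝[>] 0)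
      (𝓝 0) := by
    refine tendsto_const_nhds.congr' ?_
    filter_upwards [Ioo_mem_nhdsGT (zero_lt_one' ℝ)] with t ht
    rw [zero_add, h t ht.1.le ht.2.le, zero_smul, add_zero, sub_self, smul_zero]
  have h4 : fderiv ℝ f x d = 0 := tendsto_nhds_unique h2 h3
  refine LinearMap.det_eq_zero_iff_ker_ne_bot.2 fun hk => hd ?_
  have : d ∈ LinearMap.ker ((fderiv ℝ f x : E →L[ℝ] E) : E →ₗ[ℝ] E) := h4
  rw [hk] at this
  exact this

theorem area_lower {f : E → E} {U : Set E} (hU : MeasurableSet U)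
    (hd : ∀ x ∈ U, DifferentiableAt ℝ f x)
    (hi : ∀ x ∈ U, ∀ y ∈ U, f x = f y → x ≠ y → (fderiv ℝ f x).det = 0) (g : E → ℝ≥0∞) :
    ∫⁻ x in U, jac f x * g (f x) ∂μ ≤ ∫⁻ y, g y ∂μ := by
  set Z : Set E := {x | jac f x ≠ 0} with hZ
  have hZm : MeasurableSet Z := (measurable_jac f (measurableSet_singleton 0)).compl
  have h1 : ∫⁻ x in U, jac f x * g (f x) ∂μ = ∫⁻ x in Z ∩ U, jac f x * g (f x) ∂μ := by
    rw [← Measure.restrict_restrict hZm, ← lintegral_indicator hZm]
    refine lintegral_congr fun x => ?_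
    by_cases hx : x ∈ Z
    · rw [indicator_of_mem hx]
    · rw [indicator_of_notMem hx]
      have : jac f x = 0 := by simpa [hZ] using hx
      rw [this, zero_mul]
  have h2 : InjOn f (Z ∩ U) := by
    intro x hx y hy hxy
    by_contra hne
    have := hi x hx.2 y hy.2 hxy hne
    apply hx.1
    simp [jac, this]
  have h3 := lintegral_image_eq_lintegral_abs_det_fderiv_mul μ (hZm.inter hU)
    (fun x hx => (hd x hx.2).hasFDerivAt.hasFDerivWithinAt) h2 g
  rw [h1]
  unfold jac
  rw [← h3]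
  exact setLIntegral_le_lintegral _ _

omit [MeasurableSpace E] [BorelSpace E] in
theorem exists_det_bound (C : ℝ) : ∃ B : ℝ, ∀ A : E →L[ℝ] E, ‖A‖ ≤ C → |A.det| ≤ B := by
  have hc : IsCompact (Metric.closedBall (0 : E →L[ℝ] E) C) := isCompact_closedBall _ _
  obtain ⟨B, hB⟩ := hc.exists_bound_of_continuousOn
    (ContinuousLinearMap.continuous_det (𝕜 := ℝ) (E := E)).continuousOn
  exact ⟨B, fun A hA => hB A (by simpa using hA)⟩

end Pool.Agent.MP_5f4cdd_gt.T4

end

section

set_option autoImplicit false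
open Set Filter Topology MeasureTheory Metric

namespace Pool.Agent.MP_5f4cdd_gt.T4

theorem holo_integral {α : Type*} [MeasurableSpace α] {μ : Measure α} {F : ℂ → α → ℂ}
    {U : Set ℂ} (hU : IsOpen U) (hF : ∀ a, Differentiable ℂ fun z => F z a)
    (hm : ∀ z, AEStronglyMeasurable (F z) μ) {bound : α → ℝ} (hb : Integrable bound μ)
    (hle : ∀ z ∈ U, ∀ a, ‖F z a‖ ≤ bound a) :
    DifferentiableOn ℂ (fun z => ∫ a, F z a ∂μ) U := by
  intro z₀ hz₀
  obtain ⟨ε, hε, hball⟩ := Metric.isOpen_iff.1 hU z₀ hz₀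
  have hint : Integrable (F z₀) μ := hb.mono' (hm z₀) (Eventually.of_forall (hle z₀ hz₀))
  have hm' : AEStronglyMeasurable (fun a => deriv (fun z => F z a) z₀) μ := by
    refine aestronglyMeasurable_of_tendsto_ae (𝓝[≠] (0 : ℂ))
      (f := fun t a => t⁻¹ • (F (z₀ + t) a - F z₀ a))
      (fun t => ((hm (z₀ + t)).sub (hm z₀)).const_smul t⁻¹) (Eventually.of_forall fun a => ?_)
    exact (hF a z₀).hasDerivAt.tendsto_slope_zero
  have key := hasDerivAt_integral_of_dominated_loc_of_deriv_le (μ := μ) (F := F) (x₀ := z₀)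
    (s := ball z₀ (ε / 2)) (bound := fun a => bound a / (ε / 4))
    (F' := fun z a => deriv (fun z => F z a) z)
    (ball_mem_nhds z₀ (by positivity)) (Eventually.of_forall hm) hint hm'
    (Eventually.of_forall fun a z hz => ?_) (hb.div_const _)
    (Eventually.of_forall fun a z _ => (hF a z).hasDerivAt)
  · exact key.2.differentiableAt.differentiableWithinAt
  · refine Complex.norm_deriv_le_of_forall_mem_sphere_norm_le (by positivity)
      (hF a).diffContOnCl fun y hy => hle y (hball ?_) a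
    rw [mem_sphere] at hy
    rw [mem_ball] at hz ⊢
    linarith [dist_triangle y z z₀]

section

variable {E : Type*} [NormedAddCommGroup E] [NormedSpace ℝ E] [FiniteDimensional ℝ E]

theorem det_one_add_ne_zero {A : E →L[ℝ] E} (hA : ‖A‖ < 1) : (1 + A).det ≠ 0 := by
  intro h
  have h1 := LinearMap.det_eq_zero_iff_ker_ne_bot.1 h
  apply h1
  rw [eq_bot_iff]
  intro x hx
  have h2 : x + A x = 0 := hx
  have h3 : ‖x‖ = ‖A x‖ := by
    conv_lhs => rw [eq_neg_of_add_eq_zero_left h2, norm_neg]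
  have h4 := A.le_opNorm x
  have h5 : ‖x‖ = 0 := by nlinarith [norm_nonneg x]
  exact norm_eq_zero.1 h5

theorem det_one_add_pos {A : E →L[ℝ] E} (hA : ‖A‖ < 1) : 0 < (1 + A).det := by
  have hc : Continuous fun t : ℝ => (1 + t • A).det :=
    ContinuousLinearMap.continuous_det.comp (by fun_prop)
  by_contra hn
  push Not at hn
  have h0 : (0 : ℝ) ∈ Icc ((fun t : ℝ => (1 + t • A).det) 1) ((fun t : ℝ => (1 + t • A).det) 0) := by
    constructor
    · simpa using hn
    · have : (1 : E →L[ℝ] E).det = 1 := LinearMap.det_id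
      simp [this]
  obtain ⟨t, ht, ht0⟩ := intermediate_value_Icc' zero_le_one hc.continuousOn h0
  refine det_one_add_ne_zero (A := t • A) ?_ ht0
  rw [norm_smul, Real.norm_eq_abs, abs_of_nonneg ht.1]
  nlinarith [ht.1, ht.2, norm_nonneg A]

/-- The block operator with identity diagonal blocks. -/
noncomputable def blk (B C : E →L[ℝ] E) : (E × E) →L[ℝ] (E × E) :=
  (ContinuousLinearMap.fst ℝ E E + B.comp (ContinuousLinearMap.snd ℝ E E)).prod
    (ContinuousLinearMap.snd ℝ E E + C.comp (ContinuousLinearMap.fst ℝ E E))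

theorem det_blk (B C : E →L[ℝ] E) : (blk B C).det = (1 - C.comp B).det := by
  set b := Module.finBasis ℝ E
  have h1 : LinearMap.toMatrix (b.prod b) (b.prod b) (blk B C : (E × E) →ₗ[ℝ] (E × E)) =
      Matrix.fromBlocks 1 (LinearMap.toMatrix b b B) (LinearMap.toMatrix b b C) 1 := by
    ext i j
    rcases i with i | i <;> rcases j with j | j <;>
      simp [LinearMap.toMatrix_apply, blk, Matrix.one_apply, Finsupp.single_apply, eq_comm]
  have h2 : (blk B C).det = (LinearMap.toMatrix (b.prod b) (b.prod b)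
      (blk B C : (E × E) →ₗ[ℝ] (E × E))).det := (LinearMap.det_toMatrix _ _).symm
  have h3 : (1 - C.comp B).det = (LinearMap.toMatrix b b
      ((1 - C.comp B : E →L[ℝ] E) : E →ₗ[ℝ] E)).det := (LinearMap.det_toMatrix _ _).symm
  rw [h2, h1, Matrix.det_fromBlocks_one₁₁, h3, ← LinearMap.toMatrix_comp, ← LinearMap.toMatrix_id b,
    ← map_sub]
  rfl

theorem hasFDerivAt_blk {r : E → E} {X : E × E} (h₁ : DifferentiableAt ℝ r X.1)
    (h₂ : DifferentiableAt ℝ r X.2) (l m : ℝ) :
    HasFDerivAt (fun X : E × E => (X.1 + l • r X.2, X.2 + m • r X.1))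
      (blk (l • fderiv ℝ r X.2) (m • fderiv ℝ r X.1)) X := by
  have a1 : HasFDerivAt (fun X : E × E => r X.2)
      ((fderiv ℝ r X.2).comp (ContinuousLinearMap.snd ℝ E E)) X :=
    h₂.hasFDerivAt.comp X hasFDerivAt_snd
  have a2 : HasFDerivAt (fun X : E × E => r X.1)
      ((fderiv ℝ r X.1).comp (ContinuousLinearMap.fst ℝ E E)) X :=
    h₁.hasFDerivAt.comp X hasFDerivAt_fst
  have := (hasFDerivAt_fst.add (a1.const_smul l)).prodMk (hasFDerivAt_snd.add (a2.const_smul m))
  exact this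

end

end Pool.Agent.MP_5f4cdd_gt.T4

end

section

set_option autoImplicit false
set_option linter.unusedSectionVars false
open Set Filter Topology MeasureTheory Metric
open scoped RealInnerProductSpace NNReal

namespace Pool.Agent.MP_5f4cdd_gt.T4

variable {E : Type*} [NormedAddCommGroup E] [InnerProductSpace ℝ E] [FiniteDimensional ℝ E]
  [MeasurableSpace E] [BorelSpace E]

instance volProdHaar : (volume : Measure (E × E)).IsAddHaarMeasure :=
  Measure.prod.instIsAddHaarMeasure _ _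

theorem ae_diff_prod {r : E → E} {C : ℝ≥0} (hr : LipschitzWith C r) :
    (volume : Measure (E × E))
      ({w | DifferentiableAt ℝ r w} ×ˢ {w | DifferentiableAt ℝ r w})ᶜ = 0 := by
  have h0 : (volume : Measure E) {w | DifferentiableAt ℝ r w}ᶜ = 0 := hr.ae_differentiableAt
  rw [compl_prod_eq_union, Measure.volume_eq_prod]
  refine measure_union_null ?_ ?_ <;> simp [Measure.prod_prod, h0]

theorem gauss_prod : ∫ X : E × E, Real.exp (-(‖X.1‖ ^ 2 + ‖X.2‖ ^ 2) / 8) =
    (8 * Real.pi) ^ Module.finrank ℝ E := by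
  have h1 : ∀ X : E × E, Real.exp (-(‖X.1‖ ^ 2 + ‖X.2‖ ^ 2) / 8) =
      Real.exp (-(1 / 8) * ‖X.1‖ ^ 2) * Real.exp (-(1 / 8) * ‖X.2‖ ^ 2) := by
    intro X; rw [← Real.exp_add]; congr 1; ring
  simp_rw [h1]
  rw [Measure.volume_eq_prod, integral_prod_mul (fun x : E => Real.exp (-(1 / 8) * ‖x‖ ^ 2))
    (fun x : E => Real.exp (-(1 / 8) * ‖x‖ ^ 2)),
    GaussianFourier.integral_rexp_neg_mul_sq_norm (by norm_num : (0 : ℝ) < 1 / 8),
    ← Real.rpow_add (by positivity), add_halves, Real.rpow_natCast]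
  congr 1; ring

theorem integrable_gauss {b : ℝ} (hb : 0 < b) :
    Integrable fun X : E × E => Real.exp (-b * (‖X.1‖ ^ 2 + ‖X.2‖ ^ 2)) := by
  have h0 : Integrable fun x : E => Real.exp (-b * ‖x‖ ^ 2) := by
    refine Integrable.of_integral_ne_zero ?_
    rw [GaussianFourier.integral_rexp_neg_mul_sq_norm hb]
    positivity
  have h1 := h0.mul_prod h0
  rw [Measure.volume_eq_prod]
  refine h1.congr (Eventually.of_forall fun X => ?_)
  dsimp only
  rw [← Real.exp_add]; congr 1; ring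

/-- The shear map. -/
def shear (r : E → E) (l m : ℝ) (X : E × E) : E × E := (X.1 + l • r X.2, X.2 + m • r X.1)

theorem shear_aux {r : E → E} (hr : LipschitzWith 1 r) {l m : ℝ} (hl : |l| ≤ 1 / 2)
    (hm : |m| ≤ 1 / 2) :
    LipschitzWith (1 / 2) fun X : E × E => ((l • r X.2, m • r X.1) : E × E) := by
  refine LipschitzWith.of_dist_le_mul fun X Y => ?_
  rw [Prod.dist_eq, Prod.dist_eq]
  have h1 := hr.dist_le_mul X.1 Y.1
  have h2 := hr.dist_le_mul X.2 Y.2
  simp only [NNReal.coe_one, one_mul] at h1 h2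
  simp only [dist_smul₀, Real.norm_eq_abs]
  have h3 := le_max_left (dist X.1 Y.1) (dist X.2 Y.2)
  have h4 := le_max_right (dist X.1 Y.1) (dist X.2 Y.2)
  have h5 := dist_nonneg (x := r X.1) (y := r Y.1)
  have h6 := dist_nonneg (x := r X.2) (y := r Y.2)
  push_cast
  refine max_le ?_ ?_ <;> nlinarith [abs_nonneg l, abs_nonneg m]

theorem shear_bij {r : E → E} (hr : LipschitzWith 1 r) {l m : ℝ} (hl : |l| ≤ 1 / 2)
    (hm : |m| ≤ 1 / 2) : Function.Bijective (shear r l m) := by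
  have h := shear_aux hr hl hm
  set R := fun X : E × E => ((l • r X.2, m • r X.1) : E × E) with hR
  have e : ∀ X, shear r l m X = X + R X := fun X => rfl
  constructor
  · intro X Y hXY
    rw [e, e] at hXY
    have h1 := h.dist_le_mul X Y
    have h2 : dist X Y = dist (R X) (R Y) := by
      rw [dist_eq_norm, dist_eq_norm, ← norm_neg]
      congr 1
      rw [neg_sub, sub_eq_sub_iff_add_eq_add, add_comm (R X), ← hXY]
    rw [← h2] at h1
    push_cast at h1
    have : dist X Y = 0 := by linarith [dist_nonneg (x := X) (y := Y)]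
    exact dist_eq_zero.1 this
  · intro Y
    have hc : ContractingWith (1 / 2) fun X : E × E => Y - R X := by
      refine ⟨by norm_num, LipschitzWith.of_dist_le_mul fun X X' => ?_⟩
      rw [dist_sub_left]
      exact h.dist_le_mul X X'
    refine ⟨hc.fixedPoint, ?_⟩
    have := hc.fixedPoint_isFixedPt
    rw [e]
    exact eq_sub_iff_add_eq.1 this.symm

theorem real_case {r : E → E} (hr : LipschitzWith 1 r) {l : ℝ} (hl : |l| ≤ 1 / 2) :
    ∫ X : E × E, (1 + l ^ 2 • (fderiv ℝ r X.1).comp (fderiv ℝ r X.2)).det *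
      Real.exp (-(‖X.1 + l • r X.2‖ ^ 2 + ‖X.2 - l • r X.1‖ ^ 2) / 8) =
    (8 * Real.pi) ^ Module.finrank ℝ E := by
  set U : Set (E × E) := {w | DifferentiableAt ℝ r w} ×ˢ {w | DifferentiableAt ℝ r w} with hU
  have hUm : MeasurableSet U :=
    (measurableSet_of_differentiableAt ℝ r).prod (measurableSet_of_differentiableAt ℝ r)
  have hU0 : volume Uᶜ = 0 := ae_diff_prod hr
  have hl' : |-l| ≤ 1 / 2 := by rwa [abs_neg]
  have hbij := shear_bij hr hl hl'
  have hlip : LipschitzWith (1 + 1 / 2) (shear r l (-l)) :=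
    LipschitzWith.id.add (shear_aux hr hl hl')
  have him : volume (shear r l (-l) '' U)ᶜ = 0 := by
    rw [← image_compl_eq hbij]
    exact lip_image_null volume hlip hU0
  have h1 := integral_image_eq_integral_abs_det_fderiv_smul volume hUm
    (f := shear r l (-l))
    (f' := fun X => blk (l • fderiv ℝ r X.2) ((-l) • fderiv ℝ r X.1))
    (fun X hX => (hasFDerivAt_blk hX.1 hX.2 l (-l)).hasFDerivWithinAt) hbij.1.injOn
    (fun X : E × E => Real.exp (-(‖X.1‖ ^ 2 + ‖X.2‖ ^ 2) / 8))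
  rw [Measure.restrict_eq_self_of_ae_mem (s := shear r l (-l) '' U) him,
    Measure.restrict_eq_self_of_ae_mem (s := U) hU0, gauss_prod] at h1
  rw [h1]
  refine integral_congr_ae (Eventually.of_forall fun X => ?_)
  have e : (1 : E →L[ℝ] E) - ((-l) • fderiv ℝ r X.1).comp (l • fderiv ℝ r X.2) =
      1 + l ^ 2 • (fderiv ℝ r X.1).comp (fderiv ℝ r X.2) := by
    ext v; simp [sq, smul_smul]
  have hpos : 0 < (1 + l ^ 2 • (fderiv ℝ r X.1).comp (fderiv ℝ r X.2)).det := by
    refine det_one_add_pos ?_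
    have a1 : ‖fderiv ℝ r X.1‖ ≤ 1 := norm_fderiv_le_of_lipschitz ℝ hr
    have a2 : ‖fderiv ℝ r X.2‖ ≤ 1 := norm_fderiv_le_of_lipschitz ℝ hr
    have a3 := (fderiv ℝ r X.1).opNorm_comp_le (fderiv ℝ r X.2)
    have a4 : ‖(fderiv ℝ r X.1).comp (fderiv ℝ r X.2)‖ ≤ 1 :=
      a3.trans (mul_le_one₀ a1 (norm_nonneg _) a2)
    have a5 : l ^ 2 ≤ 1 / 4 := by rw [← sq_abs]; nlinarith [abs_nonneg l]
    rw [norm_smul, Real.norm_eq_abs, abs_of_nonneg (sq_nonneg l)]
    nlinarith [norm_nonneg ((fderiv ℝ r X.1).comp (fderiv ℝ r X.2)), sq_nonneg l]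
  dsimp only
  rw [det_blk, e, abs_of_pos hpos, smul_eq_mul]
  simp only [shear, neg_smul, ← sub_eq_add_neg]

/-- complexified determinant -/
noncomputable def cdet (z : ℂ) (A : E →L[ℝ] E) : ℂ :=
  (1 + z • (LinearMap.toMatrix (Module.finBasis ℝ E) (Module.finBasis ℝ E)
    (A : E →ₗ[ℝ] E)).map Complex.ofReal).det

theorem cdet_ofReal (t : ℝ) (A : E →L[ℝ] E) : cdet (t : ℂ) A = ((1 + t • A).det : ℝ) := by
  set b := Module.finBasis ℝ E
  have h3 : (1 + t • A).det = (LinearMap.toMatrix b b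
      ((1 + t • A : E →L[ℝ] E) : E →ₗ[ℝ] E)).det := (LinearMap.det_toMatrix _ _).symm
  have h4 : LinearMap.toMatrix b b ((1 + t • A : E →L[ℝ] E) : E →ₗ[ℝ] E) =
      1 + t • LinearMap.toMatrix b b (A : E →ₗ[ℝ] E) := by
    rw [← LinearMap.toMatrix_id b, ← map_smul, ← map_add]; rfl
  rw [h3, h4]
  have := (Complex.ofRealHom).map_det (1 + t • LinearMap.toMatrix b b (A : E →ₗ[ℝ] E))
  simp only [Complex.ofRealHom_eq_coe] at this
  rw [this, cdet]
  congr 1
  ext i j
  simp [Matrix.one_apply, b]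
  split_ifs <;> simp

theorem continuous_cdet : Continuous fun p : ℂ × (E →L[ℝ] E) => cdet p.1 p.2 := by
  unfold cdet
  refine Continuous.matrix_det (continuous_const.add (continuous_fst.smul ?_))
  refine continuous_matrix fun i j => ?_
  simp only [Matrix.map_apply, LinearMap.toMatrix_apply]
  refine Complex.continuous_ofReal.comp ?_
  exact ((Module.finBasis ℝ E).coord i).continuous_of_finiteDimensional.comp
    (by fun_prop : Continuous fun p : ℂ × (E →L[ℝ] E) => p.2 (Module.finBasis ℝ E j))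

theorem differentiable_cdet (A : E →L[ℝ] E) : Differentiable ℂ fun z => cdet z A := by
  unfold cdet
  simp only [Matrix.det_apply', Matrix.add_apply, Matrix.smul_apply, smul_eq_mul]
  fun_prop

theorem cdet_bound : ∃ B : ℝ, 0 ≤ B ∧ ∀ (z : ℂ) (A : E →L[ℝ] E), ‖z‖ ≤ 4 → ‖A‖ ≤ 1 →
    ‖cdet z A‖ ≤ B := by
  have hc : IsCompact (closedBall (0 : ℂ) 4 ×ˢ closedBall (0 : E →L[ℝ] E) 1) :=
    (isCompact_closedBall _ _).prod (isCompact_closedBall _ _)
  obtain ⟨B, hB⟩ := hc.exists_bound_of_continuousOn (continuous_cdet (E := E)).continuousOn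
  refine ⟨max B 0, le_max_right _ _, fun z A hz hA => le_trans ?_ (le_max_left _ _)⟩
  exact hB (z, A) ⟨by simpa using hz, by simpa using hA⟩

/-- the holomorphic integrand -/
noncomputable def cint (r : E → E) (z : ℂ) (X : E × E) : ℂ :=
  cdet (z ^ 2) ((fderiv ℝ r X.1).comp (fderiv ℝ r X.2)) *
    Complex.exp (-(((‖X.1‖ ^ 2 + ‖X.2‖ ^ 2 : ℝ) : ℂ) +
      2 * z * ((⟪X.1, r X.2⟫ - ⟪X.2, r X.1⟫ : ℝ) : ℂ) +
      z ^ 2 * ((‖r X.1‖ ^ 2 + ‖r X.2‖ ^ 2 : ℝ) : ℂ)) / 8)

theorem measurable_QQ (r : E → E) :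
    Measurable fun X : E × E => (fderiv ℝ r X.1).comp (fderiv ℝ r X.2) := by
  have h1 : Continuous fun p : (E →L[ℝ] E) × (E →L[ℝ] E) => p.1.comp p.2 := by fun_prop
  exact h1.measurable.comp (((measurable_fderiv ℝ r).comp measurable_fst).prodMk
    ((measurable_fderiv ℝ r).comp measurable_snd))

theorem norm_QQ_le {r : E → E} (hr : LipschitzWith 1 r) (X : E × E) :
    ‖(fderiv ℝ r X.1).comp (fderiv ℝ r X.2)‖ ≤ 1 := by
  have a1 : ‖fderiv ℝ r X.1‖ ≤ 1 := norm_fderiv_le_of_lipschitz ℝ hr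
  have a2 : ‖fderiv ℝ r X.2‖ ≤ 1 := norm_fderiv_le_of_lipschitz ℝ hr
  exact ((fderiv ℝ r X.1).opNorm_comp_le (fderiv ℝ r X.2)).trans
    (mul_le_one₀ a1 (norm_nonneg _) a2)

theorem measurable_cint {r : E → E} (hr : Continuous r) (z : ℂ) : Measurable (cint r z) := by
  unfold cint
  refine Measurable.mul ?_ (Continuous.measurable (by fun_prop))
  exact (continuous_cdet.comp (Continuous.prodMk_right (z ^ 2))).measurable.comp (measurable_QQ r)

theorem cint_real (r : E → E) (l : ℝ) (X : E × E) : cint r l X =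
    (((1 + l ^ 2 • (fderiv ℝ r X.1).comp (fderiv ℝ r X.2)).det *
      Real.exp (-(‖X.1 + l • r X.2‖ ^ 2 + ‖X.2 - l • r X.1‖ ^ 2) / 8) : ℝ) : ℂ) := by
  unfold cint
  rw [← Complex.ofReal_pow, cdet_ofReal, Complex.ofReal_mul, Complex.ofReal_exp]
  congr 2
  rw [norm_add_sq_real, norm_sub_sq_real, inner_smul_right, inner_smul_right, norm_smul, norm_smul,
    mul_pow, mul_pow, Real.norm_eq_abs, sq_abs]
  push_cast
  ring

theorem norm_cint (r : E → E) (z : ℂ) (X : E × E) : ‖cint r z X‖ =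
    ‖cdet (z ^ 2) ((fderiv ℝ r X.1).comp (fderiv ℝ r X.2))‖ *
      Real.exp (-((‖X.1‖ ^ 2 + ‖X.2‖ ^ 2) + 2 * z.re * (⟪X.1, r X.2⟫ - ⟪X.2, r X.1⟫) +
        (z.re ^ 2 - z.im ^ 2) * (‖r X.1‖ ^ 2 + ‖r X.2‖ ^ 2)) / 8) := by
  unfold cint
  rw [norm_mul, Complex.norm_exp]
  congr 2
  generalize (‖X.1‖ ^ 2 + ‖X.2‖ ^ 2) = a
  generalize (⟪X.1, r X.2⟫ - ⟪X.2, r X.1⟫) = b
  generalize (‖r X.1‖ ^ 2 + ‖r X.2‖ ^ 2) = c
  simp [sq]

theorem contour_lt {r : E → E} (hr : LipschitzWith 1 r) (h0 : ∀ w, ‖r w‖ ≤ ‖w‖) {b : ℝ}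
    (hb0 : 0 ≤ b) (hb : b < 1) :
    ∫ X : E × E, cint r (b * Complex.I) X = (((8 * Real.pi) ^ Module.finrank ℝ E : ℝ) : ℂ) := by
  set c := (1 + b) / 2 with hc
  have hc0 : 0 < c := by positivity
  have hc1 : c < 1 := by linarith
  have hbc : b < c := by linarith
  set δ := (1 - c ^ 2) / 4 with hδ
  have hcc : c ^ 2 < 1 := by nlinarith
  have hδ0 : 0 < δ := by linarith
  have hδ1 : δ ≤ 1 / 4 := by nlinarith
  set U : Set ℂ := ({z | -δ < z.re} ∩ {z | z.re < δ}) ∩ ({z | -c < z.im} ∩ {z | z.im < c}) with hU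
  have hUo : IsOpen U :=
    ((isOpen_lt continuous_const Complex.continuous_re).inter
      (isOpen_lt Complex.continuous_re continuous_const)).inter
    ((isOpen_lt continuous_const Complex.continuous_im).inter
      (isOpen_lt Complex.continuous_im continuous_const))
  have hUc : Convex ℝ U :=
    ((convex_halfSpace_re_gt _).inter (convex_halfSpace_re_lt _)).inter
      ((convex_halfSpace_im_gt _).inter (convex_halfSpace_im_lt _))
  obtain ⟨B, hB0, hB⟩ := cdet_bound (E := E)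
  have hdiff : DifferentiableOn ℂ (fun z => ∫ X : E × E, cint r z X) U := by
    refine holo_integral hUo (fun X => ?_)
      (fun z => (measurable_cint hr.continuous z).aestronglyMeasurable)
      ((integrable_gauss (b := δ / 4) (by positivity)).const_mul B) fun z hz X => ?_
    · unfold cint
      refine Differentiable.mul ((differentiable_cdet _).comp (differentiable_pow 2)) ?_
      fun_prop
    · obtain ⟨⟨a1, a2⟩, a3, a4⟩ := hz
      simp only [mem_ofPred_eq] at a1 a2 a3 a4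
      have b1 : |z.re| ≤ δ := abs_le.2 ⟨a1.le, a2.le⟩
      have b2 : z.im ^ 2 ≤ c ^ 2 := sq_le_sq' a3.le a4.le
      rw [norm_cint]
      refine mul_le_mul (hB _ _ ?_ (norm_QQ_le hr X)) (Real.exp_le_exp.2 ?_) (by positivity) hB0
      · rw [norm_pow, Complex.sq_norm, Complex.normSq_apply]
        nlinarith
      · have c1 := abs_real_inner_le_norm X.1 (r X.2)
        have c2 := abs_real_inner_le_norm X.2 (r X.1)
        have c3 := h0 X.1
        have c4 := h0 X.2
        have n1 := norm_nonneg (r X.1)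
        have n2 := norm_nonneg (r X.2)
        have d1 : ‖X.1‖ * ‖r X.2‖ ≤ ‖X.1‖ * ‖X.2‖ := by gcongr
        have d2 : ‖X.2‖ * ‖r X.1‖ ≤ ‖X.2‖ * ‖X.1‖ := by gcongr
        have d3 : |⟪X.1, r X.2⟫ - ⟪X.2, r X.1⟫| ≤ ‖X.1‖ ^ 2 + ‖X.2‖ ^ 2 := by
          refine (abs_sub _ _).trans ?_
          nlinarith [sq_nonneg (‖X.1‖ - ‖X.2‖)]
        have d4 : ‖r X.1‖ ^ 2 + ‖r X.2‖ ^ 2 ≤ ‖X.1‖ ^ 2 + ‖X.2‖ ^ 2 := by gcongr
        have d5 : 0 ≤ ‖r X.1‖ ^ 2 + ‖r X.2‖ ^ 2 := by positivity
        generalize (‖X.1‖ ^ 2 + ‖X.2‖ ^ 2) = s0 at *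
        generalize (⟪X.1, r X.2⟫ - ⟪X.2, r X.1⟫) = s1 at *
        generalize (‖r X.1‖ ^ 2 + ‖r X.2‖ ^ 2) = s2 at *
        have e1 : |z.re * s1| ≤ δ * s0 := by
          rw [abs_mul]; exact mul_le_mul b1 d3 (abs_nonneg _) hδ0.le
        have e2 := neg_abs_le (z.re * s1)
        have e3 : z.im ^ 2 * s2 ≤ c ^ 2 * s0 := mul_le_mul b2 d4 d5 (by positivity)
        have e4 : 0 ≤ z.re ^ 2 * s2 := by positivity
        have e5 : c ^ 2 = 1 - 4 * δ := by rw [hδ]; ring
        rw [e5] at e3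
        nlinarith
  have han := hdiff.analyticOnNhd hUo
  have hfreq : ∃ᶠ z in 𝓝[≠] (0 : ℂ), (fun z => ∫ X : E × E, cint r z X) z =
      (fun _ => (((8 * Real.pi) ^ Module.finrank ℝ E : ℝ) : ℂ)) z := by
    have ht : Tendsto (fun t : ℝ => (t : ℂ)) (𝓝[>] 0) (𝓝[≠] 0) := by
      refine tendsto_nhdsWithin_iff.2 ⟨?_, ?_⟩
      · exact (Complex.continuous_ofReal.tendsto' 0 0 (by simp)).mono_left nhdsWithin_le_nhds
      · filter_upwards [self_mem_nhdsWithin] with t ht
        exact Complex.ofReal_ne_zero.2 (ne_of_gt ht)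
    refine ht.frequently (Eventually.frequently ?_)
    filter_upwards [Ioo_mem_nhdsGT (by norm_num : (0 : ℝ) < 1 / 2)] with t ht
    simp_rw [cint_real]
    rw [integral_complex_ofReal, real_case hr (by rw [abs_of_pos ht.1]; exact ht.2.le)]
  have h0U : (0 : ℂ) ∈ U := by simp [hU, hδ0, hc0]
  have := han.eqOn_of_preconnected_of_frequently_eq analyticOnNhd_const hUc.isPreconnected h0U hfreq
  refine this (x := b * Complex.I) ?_
  simp [hU, hδ0, hbc]
  linarith

theorem contour {r : E → E} (hr : LipschitzWith 1 r) (h0 : ∀ w, ‖r w‖ ≤ ‖w‖)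
    (hint : Integrable fun w : E => Real.exp (-(‖w‖ ^ 2 - ‖r w‖ ^ 2) / 8)) :
    (8 * Real.pi) ^ Module.finrank ℝ E ≤
      ∫ X : E × E, |(1 - (fderiv ℝ r X.1).comp (fderiv ℝ r X.2)).det| *
        (Real.exp (-(‖X.1‖ ^ 2 - ‖r X.1‖ ^ 2) / 8) * Real.exp (-(‖X.2‖ ^ 2 - ‖r X.2‖ ^ 2) / 8)) := by
  obtain ⟨B, hB0, hB⟩ := cdet_bound (E := E)
  have hnorm : ∀ (b : ℝ) (X : E × E), ‖cint r (b * Complex.I) X‖ =
      |(1 - b ^ 2 • (fderiv ℝ r X.1).comp (fderiv ℝ r X.2)).det| *
      (Real.exp (-(‖X.1‖ ^ 2 - b ^ 2 * ‖r X.1‖ ^ 2) / 8) *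
        Real.exp (-(‖X.2‖ ^ 2 - b ^ 2 * ‖r X.2‖ ^ 2) / 8)) := by
    intro b X
    have e : ((b : ℂ) * Complex.I) ^ 2 = ((-b ^ 2 : ℝ) : ℂ) := by
      rw [mul_pow, Complex.I_sq]; push_cast; ring
    rw [norm_cint, e, cdet_ofReal, Complex.norm_real, Real.norm_eq_abs, ← Real.exp_add, neg_smul,
      ← sub_eq_add_neg]
    congr 2
    simp
    ring
  have hI : Integrable fun X : E × E => B *
      (Real.exp (-(‖X.1‖ ^ 2 - ‖r X.1‖ ^ 2) / 8) * Real.exp (-(‖X.2‖ ^ 2 - ‖r X.2‖ ^ 2) / 8)) := by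
    rw [Measure.volume_eq_prod]
    exact (hint.mul_prod hint).const_mul B
  have hlim : Tendsto (fun b : ℝ => ∫ X : E × E, ‖cint r (b * Complex.I) X‖) (𝓝[<] 1)
      (𝓝 (∫ X : E × E, ‖cint r ((1 : ℝ) * Complex.I) X‖)) := by
    refine tendsto_integral_filter_of_dominated_convergence _
      (Eventually.of_forall fun b =>
        (measurable_cint hr.continuous _).norm.aestronglyMeasurable) ?_ hI
      (Eventually.of_forall fun X => ?_)
    · filter_upwards [Ioo_mem_nhdsLT (zero_lt_one' ℝ)] with b hb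
      refine Eventually.of_forall fun X => ?_
      have hb2 : b ^ 2 ≤ 1 := by nlinarith [hb.1, hb.2]
      rw [norm_norm, hnorm]
      refine mul_le_mul ?_ ?_ (by positivity) hB0
      · have := hB ((-b ^ 2 : ℝ) : ℂ) _ (by
          rw [Complex.norm_real, norm_neg, Real.norm_eq_abs, abs_of_nonneg (sq_nonneg b)]
          linarith) (norm_QQ_le hr X)
        rwa [cdet_ofReal, Complex.norm_real, Real.norm_eq_abs, neg_smul, ← sub_eq_add_neg] at this
      · refine mul_le_mul (Real.exp_le_exp.2 ?_) (Real.exp_le_exp.2 ?_) (by positivity)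
          (by positivity)
        · nlinarith [sq_nonneg ‖r X.1‖]
        · nlinarith [sq_nonneg ‖r X.2‖]
    · refine Tendsto.mono_left (Continuous.tendsto ?_ 1) nhdsWithin_le_nhds
      simp_rw [hnorm]
      refine Continuous.mul (Continuous.abs ?_) (by fun_prop)
      exact ContinuousLinearMap.continuous_det.comp (by fun_prop)
  have hge : (8 * Real.pi) ^ Module.finrank ℝ E ≤
      ∫ X : E × E, ‖cint r ((1 : ℝ) * Complex.I) X‖ := by
    refine ge_of_tendsto hlim ?_
    filter_upwards [Ioo_mem_nhdsLT (zero_lt_one' ℝ)] with b hb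
    have h1 := norm_integral_le_integral_norm (μ := volume) (cint r (b * Complex.I))
    rw [contour_lt hr h0 hb.1.le hb.2, Complex.norm_real, Real.norm_eq_abs,
      abs_of_nonneg (by positivity)] at h1
    exact h1
  simp_rw [hnorm] at hge
  simpa using hge

end Pool.Agent.MP_5f4cdd_gt.T4

end

section

set_option autoImplicit false
set_option linter.unusedSectionVars false
open Set Filter Topology MeasureTheory Metric
open scoped RealInnerProductSpace NNReal ENNReal

namespace Pool.Agent.MP_5f4cdd_gt.T4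

variable {E : Type*} [NormedAddCommGroup E] [InnerProductSpace ℝ E] [FiniteDimensional ℝ E]
  [MeasurableSpace E] [BorelSpace E]

theorem integrable_exp_neg_norm {c : ℝ} (hc : 0 < c) :
    Integrable fun w : E => Real.exp (-c * ‖w‖) := by
  set k := Module.finrank ℝ E + 1 with hk
  have h1 := (integrable_one_add_norm (E := E) (μ := volume) (r := (k : ℝ))
    (by rw [hk]; push_cast; linarith)).const_mul (Real.exp c * k.factorial / c ^ k)
  refine h1.mono' (Continuous.aestronglyMeasurable (by fun_prop)) (Eventually.of_forall fun w => ?_)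
  have h2 := Real.pow_div_factorial_le_exp (c * (1 + ‖w‖)) (by positivity) k
  have h3 : (0 : ℝ) < 1 + ‖w‖ := by positivity
  rw [Real.norm_eq_abs, abs_of_pos (Real.exp_pos _), Real.rpow_neg h3.le, Real.rpow_natCast,
    ← div_eq_mul_inv, div_div, le_div_iff₀ (by positivity), ← mul_pow]
  rw [div_le_iff₀ (by positivity)] at h2
  calc Real.exp (-c * ‖w‖) * (c * (1 + ‖w‖)) ^ k
      ≤ Real.exp (-c * ‖w‖) * (Real.exp (c * (1 + ‖w‖)) * k.factorial) := by gcongr
    _ = Real.exp c * k.factorial := by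
      rw [← mul_assoc, ← Real.exp_add]; congr 2; ring

theorem IsProx.para {A : Set E} {a : E → E} (h : IsProx A (fun _ => 0) a) (hA : Convex ℝ A)
    {w w' : E} (h0 : ⟪a w' - a w, (w' - a w') - (w - a w)⟫ = 0) {t : ℝ} (ht : 0 ≤ t)
    (ht1 : t ≤ 1) : a (w + t • (w' - w)) = a w + t • (a w' - a w) := by
  refine h.eq_of (hA.add_smul_sub_mem (h.mem w) (h.mem w') ⟨ht, ht1⟩) fun x hx => ?_
  have a1 := (h w).2 x hx
  have a2 := (h w').2 x hx
  have a3 := (h w).2 _ (h.mem w')
  have a4 := (h w').2 _ (h.mem w)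
  have e : w + t • (w' - w) - (a w + t • (a w' - a w)) =
      (1 - t) • (w - a w) + t • (w' - a w') := by
    simp only [smul_sub, sub_smul, one_smul]; abel
  rw [e]
  generalize w - a w = τ at *
  generalize w' - a w' = τ' at *
  have e1 : x - (a w + t • (a w' - a w)) = (x - a w) - t • (a w' - a w) := by abel
  have e2 : x - a w' = (x - a w) - (a w' - a w) := by abel
  have e3 : a w - a w' = -(a w' - a w) := by abel
  rw [e1]
  rw [e2] at a2
  rw [e3] at a4
  generalize a w' - a w = d at *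
  generalize x - a w = y at *
  simp only [inner_add_right, inner_sub_left, inner_sub_right, inner_smul_left, inner_smul_right,
    inner_neg_left, conj_trivial, sub_self] at *
  have b1 : ⟪d, τ⟫ = 0 := by linarith
  have b2 : ⟪d, τ'⟫ = 0 := by linarith
  rw [b1, b2]
  nlinarith

theorem kuperberg {A : Set E} (hAc : IsCompact A) (hA : Convex ℝ A) (hsymm : ∀ x ∈ A, -x ∈ A)
    {ρ : ℝ} (hρ : 0 < ρ) (hball : closedBall 0 ρ ⊆ A) {h : E → ℝ} (hm : Measurable h)
    (hh : ∀ y, ∃ x ∈ A, h y ≤ ⟪x, y⟫) :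
    ENNReal.ofReal (Real.pi ^ Module.finrank ℝ E) ≤
      volume A * ∫⁻ y, ENNReal.ofReal (Real.exp (-h y)) := by
  have h0A : (0 : E) ∈ A := hball (mem_closedBall_self hρ.le)
  obtain ⟨a, ha⟩ := exists_isProx (v := fun _ => 0) hAc ⟨0, h0A⟩ (convexOn_const 0 hA)
    continuousOn_const
  set r : E → E := fun w => (2 : ℝ) • a w - w with hr
  have hrl : LipschitzWith 1 r := LipschitzWith.of_dist_le_mul fun w w' => by
    have := ha.norm_refl_le w w'
    rw [NNReal.coe_one, one_mul, dist_eq_norm, dist_eq_norm]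
    have e : r w - r w' = (2 : ℝ) • (a w - a w') - (w - w') := by
      simp only [hr, smul_sub]; abel
    rwa [e]
  have ha0 : a 0 = 0 := ha.eq_of h0A fun x _ => by simp
  have hr0 : ∀ w, ‖r w‖ ≤ ‖w‖ := fun w => by
    have := hrl.dist_le_mul w 0
    simpa [hr, ha0] using this
  have hsq : ∀ w, -(‖w‖ ^ 2 - ‖r w‖ ^ 2) / 8 = -⟪a w, w - a w⟫ / 2 := fun w => by
    simp only [hr]
    rw [norm_sub_sq_real, norm_smul, inner_smul_left, inner_sub_right, real_inner_self_eq_norm_sq]
    simp only [conj_trivial, Real.norm_ofNat]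
    ring
  obtain ⟨R, hR⟩ := hAc.isBounded.exists_norm_le
  have hint : Integrable fun w : E => Real.exp (-(‖w‖ ^ 2 - ‖r w‖ ^ 2) / 8) := by
    refine ((integrable_exp_neg_norm (E := E) (c := ρ / 2) (by positivity)).const_mul
      (Real.exp (ρ * R / 2))).mono' (Continuous.aestronglyMeasurable ?_)
      (Eventually.of_forall fun w => ?_)
    · have := hrl.continuous
      fun_prop
    · rw [Real.norm_eq_abs, abs_of_pos (Real.exp_pos _), ← Real.exp_add, Real.exp_le_exp, hsq]
      have b1 : ρ * ‖w - a w‖ ≤ ⟪a w, w - a w⟫ := by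
        rcases eq_or_ne (w - a w) 0 with h0 | h0
        · simp [h0]
        have hn : 0 < ‖w - a w‖ := norm_pos_iff.2 h0
        have hx : (ρ / ‖w - a w‖) • (w - a w) ∈ A := hball (by
          rw [mem_closedBall_zero_iff, norm_smul, Real.norm_eq_abs, abs_of_pos (by positivity),
            div_mul_cancel₀ _ hn.ne'])
        have := (ha w).2 _ hx
        rw [inner_sub_left, inner_smul_left, real_inner_self_eq_norm_sq] at this
        simp only [conj_trivial, sub_self] at this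
        have e : ρ / ‖w - a w‖ * ‖w - a w‖ ^ 2 = ρ * ‖w - a w‖ := by field_simp
        linarith
      have b2 : ‖w‖ - R ≤ ‖w - a w‖ := by
        linarith [norm_sub_norm_le w (a w), hR _ (ha.mem w)]
      nlinarith
  have hcont := contour hrl hr0 hint
  simp_rw [hsq] at hcont
  set n := Module.finrank ℝ E with hn
  set L : (E × E) →L[ℝ] (E × E) := (1 / 4 : ℝ) • blk 1 (-1) with hL
  have hLdet : L.det = (1 / 8) ^ n := by
    have e1 : (blk (1 : E →L[ℝ] E) (-1)).det = 2 ^ n := by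
      rw [det_blk]
      have : (1 : E →L[ℝ] E) - (-1 : E →L[ℝ] E).comp (1 : E →L[ℝ] E) =
          (2 : ℝ) • (1 : E →L[ℝ] E) := by
        ext v; simp [two_smul]
      rw [this]
      exact (LinearMap.det_smul (2 : ℝ) (LinearMap.id : E →ₗ[ℝ] E)).trans (by simp [hn])
    have e2 : L.det = (1 / 4 : ℝ) ^ Module.finrank ℝ (E × E) * (blk (1 : E →L[ℝ] E) (-1)).det :=
      LinearMap.det_smul (1 / 4 : ℝ) _
    rw [e2, e1, Module.finrank_prod, ← hn, pow_add, ← mul_pow, ← mul_pow]
    norm_num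
  set Θ : E × E → E × E := fun X => L (shear r 1 1 X) with hΘ
  have hΘ1 : ∀ X : E × E, Θ X = ((1 / 2 : ℝ) • (a X.1 + a X.2),
      (1 / 2 : ℝ) • ((X.2 - a X.2) - (X.1 - a X.1))) := by
    intro X
    simp only [hΘ, hL, shear, blk, hr]
    ext1
    · simp; module
    · simp; module
  set U : Set (E × E) := {w | DifferentiableAt ℝ r w} ×ˢ {w | DifferentiableAt ℝ r w} with hU
  have hUm : MeasurableSet U :=
    (measurableSet_of_differentiableAt ℝ r).prod (measurableSet_of_differentiableAt ℝ r)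
  have hU0 : volume Uᶜ = 0 := ae_diff_prod hrl
  have hder : ∀ X ∈ U, HasFDerivAt Θ
      (L.comp (blk ((1 : ℝ) • fderiv ℝ r X.2) ((1 : ℝ) • fderiv ℝ r X.1))) X := fun X hX =>
    L.hasFDerivAt.comp X (hasFDerivAt_blk hX.1 hX.2 1 1)
  have hjac : ∀ X ∈ U, jac Θ X = ENNReal.ofReal ((1 / 8) ^ n *
      |(1 - (fderiv ℝ r X.1).comp (fderiv ℝ r X.2)).det|) := by
    intro X hX
    unfold jac
    rw [(hder X hX).fderiv]
    have : (L.comp (blk ((1 : ℝ) • fderiv ℝ r X.2) ((1 : ℝ) • fderiv ℝ r X.1))).det =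
        L.det * (blk ((1 : ℝ) • fderiv ℝ r X.2) ((1 : ℝ) • fderiv ℝ r X.1)).det :=
      LinearMap.det_comp _ _
    rw [this, hLdet, det_blk, one_smul, one_smul, abs_mul, abs_of_pos (by positivity)]
  set g : E × E → ℝ≥0∞ := fun X => A.indicator 1 X.1 * ENNReal.ofReal (Real.exp (-h X.2)) with hg
  have hlow := area_lower volume (f := Θ) hUm (fun X hX => (hder X hX).differentiableAt) ?_ g
  · have e1 : ∫⁻ X, g X = volume A * ∫⁻ y, ENNReal.ofReal (Real.exp (-h y)) := by
      rw [Measure.volume_eq_prod, ← lintegral_indicator_one hAc.measurableSet]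
      exact lintegral_prod_mul (f := A.indicator 1)
        (g := fun y => ENNReal.ofReal (Real.exp (-h y)))
        ((measurable_one.indicator hAc.measurableSet).aemeasurable)
        (Measurable.aemeasurable (by fun_prop))
    rw [e1] at hlow
    refine le_trans ?_ hlow
    set G : E × E → ℝ := fun X => |(1 - (fderiv ℝ r X.1).comp (fderiv ℝ r X.2)).det| *
        (Real.exp (-⟪a X.1, X.1 - a X.1⟫ / 2) * Real.exp (-⟪a X.2, X.2 - a X.2⟫ / 2)) with hG
    have e2 : ENNReal.ofReal (Real.pi ^ n) ≤ ∫⁻ X, ENNReal.ofReal ((1 / 8) ^ n * G X) := by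
      have b1 : Real.pi ^ n ≤ ∫ X, (1 / 8) ^ n * G X := by
        rw [integral_const_mul]
        calc Real.pi ^ n = (1 / 8) ^ n * (8 * Real.pi) ^ n := by
              rw [← mul_pow]; congr 1; ring
          _ ≤ _ := by gcongr
      refine (ENNReal.ofReal_le_ofReal b1).trans ?_
      refine (ENNReal.ofReal_le_ofReal (le_abs_self _)).trans ?_
      rw [← Real.norm_eq_abs, ofReal_norm]
      refine (enorm_integral_le_lintegral_enorm _).trans (le_of_eq (lintegral_congr fun X => ?_))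
      rw [← ofReal_norm, Real.norm_eq_abs, abs_of_nonneg (by positivity)]
    refine e2.trans ?_
    rw [← Measure.restrict_eq_self_of_ae_mem (s := U) hU0]
    conv_rhs => rw [Measure.restrict_restrict hUm, inter_self]
    refine setLIntegral_mono' hUm fun X hX => ?_
    rw [hjac X hX, hΘ1]
    have hmem : (1 / 2 : ℝ) • (a X.1 + a X.2) ∈ A := by
      rw [smul_add]
      exact hA (ha.mem _) (ha.mem _) (by norm_num) (by norm_num) (by norm_num)
    simp only [hg, indicator_of_mem hmem, Pi.one_apply, one_mul]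
    rw [← ENNReal.ofReal_mul (by positivity), hG, ← mul_assoc]
    refine ENNReal.ofReal_le_ofReal (mul_le_mul_of_nonneg_left ?_ (by positivity))
    rw [← Real.exp_add, Real.exp_le_exp]
    obtain ⟨x, hx, hx'⟩ := hh ((1 / 2 : ℝ) • ((X.2 - a X.2) - (X.1 - a X.1)))
    have c1 := (ha X.2).2 x hx
    have c2 := (ha X.1).2 (-x) (hsymm x hx)
    rw [inner_smul_right, inner_sub_right] at hx'
    rw [inner_sub_left] at c1 c2
    rw [inner_neg_left] at c2
    simp only [sub_self] at c1 c2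
    linarith
  · intro X hX Y _ hXY hne
    rw [hΘ1, hΘ1, Prod.mk.injEq] at hXY
    have i1 : a X.1 + a X.2 = a Y.1 + a Y.2 := smul_right_injective E (by norm_num) hXY.1
    have i2 : (X.2 - a X.2) - (X.1 - a X.1) = (Y.2 - a Y.2) - (Y.1 - a Y.1) :=
      smul_right_injective E (by norm_num) hXY.2
    have j1 : a Y.2 - a X.2 = -(a Y.1 - a X.1) := by
      rw [eq_neg_iff_add_eq_zero, ← sub_eq_zero.2 i1.symm]; abel
    have j2 : (Y.2 - a Y.2) - (X.2 - a X.2) = (Y.1 - a Y.1) - (X.1 - a X.1) := by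
      rw [← sub_eq_zero, ← sub_eq_zero.2 i2.symm]; abel
    have k : ∀ w w' : E, 0 ≤ ⟪a w' - a w, (w' - a w') - (w - a w)⟫ := by
      intro w w'
      have := ha.firm w' w
      have e : (w' - a w') - (w - a w) = (w' - w) - (a w' - a w) := by abel
      rw [e, inner_sub_right, real_inner_self_eq_norm_sq]
      linarith
    have k1 := k X.1 Y.1
    have k2 := k X.2 Y.2
    have k3 : ⟪a Y.1 - a X.1, (Y.1 - a Y.1) - (X.1 - a X.1)⟫ = 0 := by
      rw [j1, j2, inner_neg_left] at k2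
      linarith
    have k4 : ⟪a Y.2 - a X.2, (Y.2 - a Y.2) - (X.2 - a X.2)⟫ = 0 := by
      rw [j1, j2, inner_neg_left, k3, neg_zero]
    refine det_eq_zero_of_segment (d := Y - X) (hder X hX).differentiableAt
      (sub_ne_zero.2 hne.symm) fun t ht ht1 => ?_
    rw [hΘ1, hΘ1]
    simp only [Prod.fst_add, Prod.snd_add, Prod.smul_fst, Prod.smul_snd, Prod.fst_sub,
      Prod.snd_sub]
    rw [ha.para hA k3 ht ht1, ha.para hA k4 ht ht1, j1]
    have j3 : Y.2 - X.2 = (Y.1 - X.1) - (2 : ℝ) • (a Y.1 - a X.1) := by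
      have : Y.2 - X.2 = ((Y.2 - a Y.2) - (X.2 - a X.2)) + (a Y.2 - a X.2) := by abel
      rw [this, j1, j2]; module
    rw [j3]
    congr 2 <;> module

end Pool.Agent.MP_5f4cdd_gt.T4

end
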