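import Mathlib
import Pool.Agent.Mg.F5f4cdda.Geab4d5

section

set_option autoImplicit false
set_option linter.unusedSectionVars false
open Set Filter Topology MeasureTheory Metric
open scoped RealInnerProductSpace NNReal ENNReal BoundedContinuousFunction

namespace Pool.Agent.MP_5f4cdd_gt.T4

variable {E : Type*} [NormedAddCommGroup E] [InnerProductSpace ℝ E]

/-- Legendre transform over a set. -/
noncomputable def lconj (K : Set E) (ψ : E → ℝ) (θ : E) : ℝ :=
  sSup ((fun x => ⟪x, θ⟫ - ψ x) '' K)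

section conj

variable {K : Set E} {ψ : E → ℝ}

theorem lconj_attained (hK : IsCompact K) (hne : K.Nonempty) (hψ : Continuous ψ) (θ : E) :
    ∃ x ∈ K, lconj K ψ θ = ⟪x, θ⟫ - ψ x := by
  obtain ⟨x, hx, h⟩ := hK.exists_sSup_image_eq hne
    (f := fun x => ⟪x, θ⟫ - ψ x) (Continuous.continuousOn (by fun_prop))
  exact ⟨x, hx, h⟩

theorem le_lconj (hK : IsCompact K) (hψ : Continuous ψ) (θ : E) {x : E} (hx : x ∈ K) :
    ⟪x, θ⟫ - ψ x ≤ lconj K ψ θ :=
  le_csSup (hK.bddAbove_image (Continuous.continuousOn (by fun_prop))) (mem_image_of_mem _ hx)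

theorem lconj_le (hne : K.Nonempty) {θ : E} {c : ℝ} (h : ∀ x ∈ K, ⟪x, θ⟫ - ψ x ≤ c) :
    lconj K ψ θ ≤ c :=
  csSup_le (hne.image _) (by rintro _ ⟨x, hx, rfl⟩; exact h x hx)

theorem lconj_lipschitz (hK : IsCompact K) (hne : K.Nonempty) (hψ : Continuous ψ) {R : ℝ≥0}
    (hR : ∀ x ∈ K, ‖x‖ ≤ R) : LipschitzWith R (lconj K ψ) := by
  refine LipschitzWith.of_le_add_mul R fun θ θ' => lconj_le hne fun x hx => ?_
  have h1 := le_lconj hK hψ θ' hx
  have h2 := real_inner_le_norm x (θ - θ')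
  have h3 : ‖x‖ * ‖θ - θ'‖ ≤ R * ‖θ - θ'‖ := mul_le_mul_of_nonneg_right (hR x hx) (norm_nonneg _)
  rw [inner_sub_right] at h2
  rw [dist_eq_norm]
  linarith

theorem lconj_continuous (hK : IsCompact K) (hne : K.Nonempty) (hψ : Continuous ψ) :
    Continuous (lconj K ψ) := by
  obtain ⟨R, hR⟩ := hK.isBounded.exists_norm_le
  exact (lconj_lipschitz hK hne hψ (R := R.toNNReal)
    fun x hx => (hR x hx).trans (Real.le_coe_toNNReal R)).continuous

theorem lconj_convex (hK : IsCompact K) (hne : K.Nonempty) (hψ : Continuous ψ) :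
    ConvexOn ℝ univ (lconj K ψ) := by
  refine ⟨convex_univ, fun θ _ θ' _ a b ha hb hab => lconj_le hne fun x hx => ?_⟩
  have h1 := mul_le_mul_of_nonneg_left (le_lconj hK hψ θ hx) ha
  have h2 := mul_le_mul_of_nonneg_left (le_lconj hK hψ θ' hx) hb
  rw [inner_add_right, inner_smul_right, inner_smul_right, smul_eq_mul, smul_eq_mul]
  have : ψ x = a * ψ x + b * ψ x := by rw [← add_mul, hab, one_mul]
  linarith

theorem lconj_mono (hK : IsCompact K) (hne : K.Nonempty) {ψ' : E → ℝ} (hψ' : Continuous ψ')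
    {ε : ℝ} (h : ∀ x ∈ K, ψ' x ≤ ψ x + ε) (θ : E) : lconj K ψ θ ≤ lconj K ψ' θ + ε :=
  lconj_le hne fun x hx => by linarith [le_lconj hK hψ' θ hx, h x hx]

theorem lconj_envelope (hK : IsCompact K) (hne : K.Nonempty) (hψ : Continuous ψ) {θ q : E}
    (hq : q ∈ K) (hq' : lconj K ψ θ = ⟪q, θ⟫ - ψ q)
    (huniq : ∀ x ∈ K, lconj K ψ θ = ⟪x, θ⟫ - ψ x → x = q) (η : E →ᵇ ℝ) :
    Tendsto (fun t : ℝ => (lconj K (fun x => ψ x + t * η x) θ - lconj K ψ θ) / t) (𝓝[>] 0)
      (𝓝 (-η q)) := by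
  rw [Metric.tendsto_nhds]
  intro ε hε
  have hgap : ∃ γ > 0, ∀ x ∈ K, η x ≤ η q - ε / 2 → ⟪x, θ⟫ - ψ x ≤ lconj K ψ θ - γ := by
    set N := K ∩ {x | η x ≤ η q - ε / 2} with hN
    have hNc : IsCompact N := hK.inter_right (isClosed_le η.continuous continuous_const)
    rcases N.eq_empty_or_nonempty with h0 | h0
    · refine ⟨1, one_pos, fun x hx hx' => ?_⟩
      have : x ∈ N := ⟨hx, hx'⟩
      rw [h0] at this
      exact this.elim
    · obtain ⟨y, hy, hy'⟩ := hNc.exists_isMaxOn h0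
        (f := fun x => ⟪x, θ⟫ - ψ x) (Continuous.continuousOn (by fun_prop))
      have h1 := le_lconj hK hψ θ hy.1
      have h2 : lconj K ψ θ ≠ ⟪y, θ⟫ - ψ y := by
        intro h
        have h3 := huniq y hy.1 h
        have h4 : η y ≤ η q - ε / 2 := hy.2
        rw [h3] at h4
        linarith
      refine ⟨lconj K ψ θ - (⟪y, θ⟫ - ψ y), sub_pos.2 (lt_of_le_of_ne h1 h2.symm),
        fun x hx hx' => ?_⟩
      have := hy' (a := x) ⟨hx, hx'⟩
      simp only [mem_ofPred_eq] at this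
      linarith
  obtain ⟨γ, hγ, hgap⟩ := hgap
  have hM : 0 ≤ ‖η‖ := norm_nonneg _
  filter_upwards [Ioo_mem_nhdsGT (by positivity : 0 < γ / (2 * ‖η‖ + 1))] with t ht
  have ht0 := ht.1
  have ht1 : t * (2 * ‖η‖ + 1) < γ := by
    have := ht.2
    rwa [lt_div_iff₀ (by positivity)] at this
  have hc : Continuous fun x => ψ x + t * η x := by fun_prop
  have lo := le_lconj hK hc θ hq
  have bq := abs_le.1 (η.norm_coe_le_norm q)
  have hi : lconj K (fun x => ψ x + t * η x) θ ≤ lconj K ψ θ + t * (-η q + ε / 2) := by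
    refine lconj_le hne fun x hx => ?_
    have bx := abs_le.1 (η.norm_coe_le_norm x)
    by_cases hx' : η x ≤ η q - ε / 2
    · have := hgap x hx hx'
      nlinarith [mul_le_mul_of_nonneg_left bx.1 ht0.le, mul_le_mul_of_nonneg_left bq.2 ht0.le]
    · push Not at hx'
      have := le_lconj hK hψ θ hx
      nlinarith [mul_le_mul_of_nonneg_left hx'.le ht0.le]
  rw [Real.dist_eq, abs_lt]
  constructor
  · have : -η q ≤ (lconj K (fun x => ψ x + t * η x) θ - lconj K ψ θ) / t := by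
      rw [le_div_iff₀ ht0]; linarith
    linarith
  · have : (lconj K (fun x => ψ x + t * η x) θ - lconj K ψ θ) / t ≤ -η q + ε / 2 := by
      rw [div_le_iff₀ ht0]; linarith
    linarith

end conj

variable [FiniteDimensional ℝ E] [MeasurableSpace E] [BorelSpace E]

theorem integrable_of_compact {ν : Measure E} [IsFiniteMeasure ν] {K : Set E} (hK : IsCompact K)
    (h0 : ν Kᶜ = 0) {f : E → ℝ} (hf : Continuous f) : Integrable f ν := by
  have := hf.continuousOn.integrableOn_compact (μ := ν) hK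
  rwa [IntegrableOn, Measure.restrict_eq_self_of_ae_mem (s := K) h0] at this

theorem integral_le_add {ν : Measure E} [IsProbabilityMeasure ν] {K : Set E} (hK : IsCompact K)
    (h0 : ν Kᶜ = 0) {f g : E → ℝ} (hf : Continuous f) (hg : Continuous g) {c : ℝ}
    (h : ∀ x ∈ K, f x ≤ g x + c) : ∫ x, f x ∂ν ≤ ∫ x, g x ∂ν + c := by
  have h1 : ∫ x, g x ∂ν + c = ∫ x, (g x + c) ∂ν := by
    rw [integral_add (integrable_of_compact hK h0 hg) (integrable_const c)]; simp
  rw [h1]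
  refine integral_mono_ae (integrable_of_compact hK h0 hf)
    (integrable_of_compact hK h0 (by fun_prop)) ?_
  have : ∀ᵐ x ∂ν, x ∈ K := h0
  filter_upwards [this] with x hx using h x hx

theorem exists_dual_min {π μ : Measure E} [IsProbabilityMeasure π] [IsProbabilityMeasure μ]
    {S : Set E} (hS : IsCompact S) (hne : S.Nonempty) (hμ : μ Sᶜ = 0) {ρ : ℝ≥0}
    (hπ : π (closedBall 0 ρ)ᶜ = 0) :
    ∃ v : E → ℝ, ConvexOn ℝ univ v ∧ Continuous v ∧ ∀ ψ : E → ℝ, Continuous ψ →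
      ∫ θ, lconj S v θ ∂π + ∫ x, v x ∂μ ≤ ∫ θ, lconj S ψ θ ∂π + ∫ x, ψ x ∂μ := by
  set B := closedBall (0 : E) ρ with hB
  have hBc : IsCompact B := isCompact_closedBall _ _
  have hBne : B.Nonempty := ⟨0, mem_closedBall_self ρ.2⟩
  set Φ : (E → ℝ) → ℝ := fun ψ => ∫ θ, lconj S ψ θ ∂π + ∫ x, ψ x ∂μ with hΦ
  set V : Set (E → ℝ) := {v | LipschitzWith ρ v} ∩ {v | v 0 = 0} with hV
  have hVc : IsCompact V := by
    refine (isCompact_univ_pi (s := fun x : E => Icc (-(ρ * ‖x‖)) (ρ * ‖x‖))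
      fun x => isCompact_Icc).of_isClosed_subset ?_ ?_
    · exact (isClosed_setOfPred_lipschitzWith ρ).inter
        (isClosed_eq (continuous_apply 0) continuous_const)
    · rintro v ⟨h1, h2⟩ x -
      have := h1.dist_le_mul x 0
      rw [show v 0 = 0 from h2, Real.dist_eq, sub_zero, dist_zero_right] at this
      exact abs_le.1 this
  have hclose : ∀ v v' : E → ℝ, Continuous v → Continuous v' → ∀ ε : ℝ,
      (∀ x ∈ S, |v x - v' x| ≤ ε) → Φ v ≤ Φ v' + 2 * ε := by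
    intro v v' hv hv' ε h
    have a1 := integral_le_add hBc hπ (lconj_continuous hS hne hv) (lconj_continuous hS hne hv')
      (c := ε) fun θ _ => lconj_mono hS hne hv' (fun x hx => by linarith [abs_le.1 (h x hx)]) θ
    have a2 := integral_le_add hS hμ hv hv' (c := ε) fun x hx => by linarith [abs_le.1 (h x hx)]
    simp only [hΦ]
    linarith
  have hΦc : ContinuousOn Φ V := by
    intro v₀ hv₀
    rw [ContinuousWithinAt, Metric.tendsto_nhds]
    intro ε hε
    set δ := ε / (3 * (1 + 2 * ρ)) with hδ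
    have hδ0 : 0 < δ := by positivity
    obtain ⟨t, ht, hcov⟩ := Metric.totallyBounded_iff.1 hS.totallyBounded δ hδ0
    have hev : ∀ᶠ v in 𝓝 v₀, ∀ y ∈ t, dist (v y) (v₀ y) < δ :=
      (ht.eventually_all).2 fun y _ =>
        Metric.tendsto_nhds.1 ((continuous_apply y).tendsto v₀) δ hδ0
    filter_upwards [nhdsWithin_le_nhds hev, self_mem_nhdsWithin] with v hv hvV
    have hb : ∀ x ∈ S, |v x - v₀ x| ≤ ε / 3 := by
      intro x hx
      obtain ⟨y, hy, hxy⟩ := mem_iUnion₂.1 (hcov hx)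
      rw [mem_ball] at hxy
      have b1 := hvV.1.dist_le_mul x y
      have b2 := hv₀.1.dist_le_mul x y
      have b3 := hv y hy
      have b4 : (ρ : ℝ) * dist x y ≤ ρ * δ := mul_le_mul_of_nonneg_left hxy.le ρ.2
      have b5 : δ * (1 + 2 * ρ) = ε / 3 := by rw [hδ]; field_simp
      rw [Real.dist_eq] at b1 b2 b3
      rw [abs_le] at b1 b2 ⊢
      rw [abs_lt] at b3
      constructor <;> nlinarith
    have c1 := hclose v v₀ hvV.1.continuous hv₀.1.continuous _ hb
    have c2 := hclose v₀ v hv₀.1.continuous hvV.1.continuous _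
      fun x hx => by rw [abs_sub_comm]; exact hb x hx
    rw [Real.dist_eq, abs_lt]
    constructor <;> linarith
  have hhat : ∀ ψ : E → ℝ, Continuous ψ → ∀ c : ℝ,
      Φ (fun x => lconj B (lconj S ψ) x - c) ≤ Φ ψ := by
    intro ψ hψ c
    have h1 := lconj_continuous hS hne hψ
    have h2 := lconj_continuous hBc hBne h1
    have h3 : Continuous fun x => lconj B (lconj S ψ) x - c := h2.sub continuous_const
    have a1 := integral_le_add hBc hπ (lconj_continuous hS hne h3) h1 (c := c) fun θ hθ =>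
      lconj_le hne fun x _ => by
        have := le_lconj hBc h1 x hθ
        rw [real_inner_comm] at this
        linarith
    have a2 := integral_le_add hS hμ h3 hψ (c := -c) fun x hx => by
      have : lconj B (lconj S ψ) x ≤ ψ x := lconj_le hBne fun θ _ => by
        have := le_lconj hS hψ θ hx
        rw [real_inner_comm] at this
        linarith
      linarith
    simp only [hΦ]
    linarith
  have hmem : ∀ ψ : E → ℝ, Continuous ψ →
      (fun x => lconj B (lconj S ψ) x - lconj B (lconj S ψ) 0) ∈ V := by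
    intro ψ hψ
    have h1 := lconj_lipschitz hBc hBne (lconj_continuous hS hne hψ) (R := ρ)
      fun x hx => by simpa [hB] using hx
    refine ⟨LipschitzWith.of_dist_le_mul fun x y => ?_, sub_self _⟩
    rw [dist_sub_right]
    exact h1.dist_le_mul x y
  obtain ⟨v₀, hv₀, hmin⟩ := hVc.exists_isMinOn ⟨_, hmem 0 continuous_const⟩ hΦc
  have hc₀ := hv₀.1.continuous
  refine ⟨lconj B (lconj S v₀), lconj_convex hBc hBne (lconj_continuous hS hne hc₀),
    lconj_continuous hBc hBne (lconj_continuous hS hne hc₀), fun ψ hψ => ?_⟩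
  have a1 := hhat v₀ hc₀ 0
  have a2 : Φ v₀ ≤ _ := hmin (hmem ψ hψ)
  have a3 := hhat ψ hψ (lconj B (lconj S ψ) 0)
  simp only [sub_zero] at a1
  exact a1.trans (a2.trans a3)

theorem exists_brenier {π μ : Measure E} [IsProbabilityMeasure π] [IsProbabilityMeasure μ]
    {S : Set E} (hS : IsCompact S) (hne : S.Nonempty) (hμ : μ Sᶜ = 0) {ρ : ℝ≥0}
    (hπ : π (closedBall 0 ρ)ᶜ = 0) (hac : π ≪ volume) :
    ∃ v : E → ℝ, ConvexOn ℝ univ v ∧ Continuous v ∧ ∃ T : E → E, Measurable T ∧ π.map T = μ ∧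
      ∀ᵐ θ ∂π, T θ ∈ S ∧ ∀ x ∈ S, ⟪x - T θ, θ⟫ ≤ v x - v (T θ) := by
  obtain ⟨v, hvc, hv, hmin⟩ := exists_dual_min hS hne hμ hπ
  have hBc : IsCompact (closedBall (0 : E) ρ) := isCompact_closedBall _ _
  set f := lconj S v with hf
  obtain ⟨R, hR⟩ := hS.isBounded.exists_norm_le
  have hfl : LipschitzWith R.toNNReal f := lconj_lipschitz hS hne hv
    fun x hx => (hR x hx).trans (Real.le_coe_toNNReal R)
  set T : E → E := fun θ => (InnerProductSpace.toDual ℝ E).symm (fderiv ℝ f θ) with hT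
  have hTm : Measurable T :=
    (InnerProductSpace.toDual ℝ E).symm.continuous.measurable.comp (measurable_fderiv ℝ f)
  have huniq : ∀ θ, DifferentiableAt ℝ f θ → ∀ x ∈ S, f θ = ⟪x, θ⟫ - v x → x = T θ := by
    intro θ hθ x hx hx'
    have h1 : IsLocalMin (fun θ' => f θ' - ⟪x, θ'⟫) θ := by
      refine Eventually.of_forall fun θ' => ?_
      have := le_lconj hS hv θ' hx
      simp only [hx']
      linarith
    have h2 : HasFDerivAt (fun θ' => f θ' - ⟪x, θ'⟫) (fderiv ℝ f θ - innerSL ℝ x) θ :=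
      hθ.hasFDerivAt.sub (innerSL ℝ x).hasFDerivAt
    have h3 := sub_eq_zero.1 (h1.hasFDerivAt_eq_zero h2)
    simp only [hT, h3]
    exact ((InnerProductSpace.toDual ℝ E).symm_apply_apply x).symm
  have hae : ∀ᵐ θ ∂π, DifferentiableAt ℝ f θ := hac.ae_le hfl.ae_differentiableAt
  have hmax : ∀ θ, DifferentiableAt ℝ f θ → T θ ∈ S ∧ f θ = ⟪T θ, θ⟫ - v (T θ) := by
    intro θ hθ
    obtain ⟨x, hx, hx'⟩ := lconj_attained hS hne hv θ
    rw [← huniq θ hθ x hx hx']
    exact ⟨hx, hx'⟩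
  have hvar : ∀ η : E →ᵇ ℝ, ∫ θ, η (T θ) ∂π ≤ ∫ x, η x ∂μ := by
    intro η
    have hlim : Tendsto (fun t : ℝ => ∫ θ, (lconj S (fun x => v x + t * η x) θ - f θ) / t ∂π)
        (𝓝[>] 0) (𝓝 (∫ θ, -η (T θ) ∂π)) := by
      refine tendsto_integral_filter_of_dominated_convergence (fun _ => ‖η‖)
        (Eventually.of_forall fun t => Continuous.aestronglyMeasurable ?_) ?_
        (integrable_const _) ?_
      · exact ((lconj_continuous hS hne (by fun_prop)).sub hfl.continuous).div_const t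
      · filter_upwards [self_mem_nhdsWithin] with t ht
        have ht : 0 < t := ht
        refine Eventually.of_forall fun θ => ?_
        have a1 := lconj_mono (ψ := fun x => v x + t * η x) hS hne hv (ε := t * ‖η‖)
          (fun x _ => by
            nlinarith [mul_le_mul_of_nonneg_left (abs_le.1 (η.norm_coe_le_norm x)).1 ht.le]) θ
        have a2 := lconj_mono (ψ := v) (ψ' := fun x => v x + t * η x) hS hne (by fun_prop)
          (ε := t * ‖η‖) (fun x _ => by
            nlinarith [mul_le_mul_of_nonneg_left (abs_le.1 (η.norm_coe_le_norm x)).2 ht.le]) θ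
        rw [Real.norm_eq_abs, abs_div, abs_of_pos ht, div_le_iff₀ ht, abs_le]
        constructor <;> linarith
      · filter_upwards [hae] with θ hθ
        exact lconj_envelope hS hne hv (hmax θ hθ).1 (hmax θ hθ).2 (huniq θ hθ) η
    have hge : -∫ x, η x ∂μ ≤ ∫ θ, -η (T θ) ∂π := by
      refine ge_of_tendsto hlim ?_
      filter_upwards [self_mem_nhdsWithin] with t ht
      have ht : 0 < t := ht
      have hc : Continuous fun x => v x + t * η x := by fun_prop
      have a1 := hmin _ hc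
      rw [integral_add (integrable_of_compact hS hμ hv)
        ((integrable_of_compact hS hμ η.continuous).const_mul t), integral_const_mul] at a1
      rw [integral_div, integral_sub (integrable_of_compact hBc hπ (lconj_continuous hS hne hc))
        (integrable_of_compact hBc hπ hfl.continuous), le_div_iff₀ ht]
      linarith
    rw [integral_neg] at hge
    linarith
  refine ⟨v, hvc, hv, T, hTm, ?_, ?_⟩
  · have := Measure.isProbabilityMeasure_map (μ := π) hTm.aemeasurable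
    refine ext_of_forall_integral_eq_of_IsFiniteMeasure fun η => ?_
    rw [integral_map hTm.aemeasurable η.continuous.aestronglyMeasurable]
    have a1 := hvar η
    have a2 := hvar (-η)
    simp only [BoundedContinuousFunction.coe_neg, Pi.neg_apply, integral_neg] at a2
    linarith
  · filter_upwards [hae] with θ hθ
    refine ⟨(hmax θ hθ).1, fun x hx => ?_⟩
    have a1 := le_lconj hS hv θ hx
    have a2 := (hmax θ hθ).2
    rw [inner_sub_left]
    linarith

end Pool.Agent.MP_5f4cdd_gt.T4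

end

section

set_option autoImplicit false
open Matrix
open scoped MatrixOrder

namespace Pool.Agent.MP_5f4cdd_gt.T4

variable {ι : Type*} [Fintype ι] [DecidableEq ι]

theorem det_one_add_eq {X : Matrix ι ι ℝ} (hX : X.IsHermitian) :
    (1 + X).det = ∏ i, (1 + hX.eigenvalues i) := by
  have h := hX.spectral_theorem
  set U := hX.eigenvectorUnitary with hU
  rw [Unitary.conjStarAlgAut_apply] at h
  have h1 : (U : Matrix ι ι ℝ) * star (U : Matrix ι ι ℝ) = 1 := Unitary.coe_mul_star_self U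
  have h2 : 1 + X = (U : Matrix ι ι ℝ) * (diagonal fun i => 1 + hX.eigenvalues i) *
      star (U : Matrix ι ι ℝ) := by
    have : (diagonal fun i => 1 + hX.eigenvalues i) =
        1 + diagonal (RCLike.ofReal ∘ hX.eigenvalues) := by
      rw [← diagonal_one, diagonal_add]; rfl
    rw [this, mul_add, add_mul, mul_one, h1, ← h]
  rw [h2, det_mul, det_mul, mul_comm (det (U : Matrix ι ι ℝ)), mul_assoc, ← det_mul, h1, det_one,
    mul_one, det_diagonal]

theorem one_le_det_one_add {X : Matrix ι ι ℝ} (hX : X.PosSemidef) : 1 ≤ (1 + X).det := by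
  rw [det_one_add_eq hX.1]
  calc (1 : ℝ) = ∏ _i : ι, (1 : ℝ) := by simp
    _ ≤ _ := Finset.prod_le_prod (fun _ _ => zero_le_one)
      fun i _ => by linarith [hX.eigenvalues_nonneg i]

theorem det_amgm {X : Matrix ι ι ℝ} (hX : X.PosSemidef) :
    (256 / 27 : ℝ) ^ Fintype.card ι * X.det ^ 3 ≤ (1 + X).det ^ 4 := by
  rw [det_one_add_eq hX.1, hX.1.det_eq_prod_eigenvalues, ← Finset.prod_pow, ← Finset.prod_pow,
    ← Finset.card_univ, ← Finset.prod_const, ← Finset.prod_mul_distrib]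
  refine Finset.prod_le_prod (fun i _ => ?_) fun i _ => ?_
  · have := hX.eigenvalues_nonneg i
    simp only [RCLike.ofReal_real_eq_id, id]
    positivity
  · have := hX.eigenvalues_nonneg i
    simp only [RCLike.ofReal_real_eq_id, id]
    set y := hX.1.eigenvalues i
    have e : (1 + y) ^ 4 - 256 / 27 * y ^ 3 = (y - 3) ^ 2 * (27 * y ^ 2 + 14 * y + 3) / 27 := by
      ring
    have : 0 ≤ (y - 3) ^ 2 * (27 * y ^ 2 + 14 * y + 3) / 27 := by positivity
    linarith

theorem exists_normalizer {G : Matrix ι ι ℝ} (hG : G.PosDef) :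
    ∃ N : Matrix ι ι ℝ, N * G * Nᴴ = 1 := by
  obtain ⟨B, hB⟩ := CStarAlgebra.nonneg_iff_eq_star_mul_self.mp hG.posSemidef.nonneg
  have hdet : B.det ≠ 0 := by
    intro h0
    have := hG.det_pos
    rw [hB, det_mul, h0, mul_zero] at this
    exact lt_irrefl _ this
  have hu : IsUnit B.det := isUnit_iff_ne_zero.2 hdet
  refine ⟨(B⁻¹)ᴴ, ?_⟩
  rw [hB, conjTranspose_conjTranspose, star_eq_conjTranspose, ← mul_assoc, ← conjTranspose_mul,
    mul_nonsing_inv _ hu, conjTranspose_one, one_mul, mul_nonsing_inv _ hu]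

theorem det_conj (N X : Matrix ι ι ℝ) : (N * X * Nᴴ).det = N.det ^ 2 * X.det := by
  rw [det_mul, det_mul, det_conjTranspose, star_trivial]; ring

theorem det_le_det_add {X Z : Matrix ι ι ℝ} (hX : X.PosDef) (hZ : Z.PosSemidef) :
    X.det ≤ (X + Z).det := by
  obtain ⟨N, hN⟩ := exists_normalizer hX
  have h1 : N.det ^ 2 * X.det = 1 := by rw [← det_conj, hN, det_one]
  have h2 : N.det ^ 2 * (X + Z).det = (1 + N * Z * Nᴴ).det := by
    rw [← det_conj, mul_add, add_mul, hN]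
  have h3 := one_le_det_one_add (hZ.mul_mul_conjTranspose_same N)
  have h4 : 0 < N.det ^ 2 := by
    rcases (sq_nonneg N.det).lt_or_eq with h | h
    · exact h
    · rw [← h, zero_mul] at h1; exact absurd h1 zero_ne_one
  exact le_of_mul_le_mul_left (by rw [h1, h2]; exact h3) h4

theorem det_submod {Y Z : Matrix ι ι ℝ} (hY : Y.PosSemidef) (hZ : Z.PosSemidef) :
    (1 + (Y + Z)).det ≤ (1 + Y).det * (1 + Z).det := by
  obtain ⟨B, hB⟩ := CStarAlgebra.nonneg_iff_eq_star_mul_self.mp hZ.nonneg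
  rw [star_eq_conjTranspose] at hB
  set T := 1 + Y with hT
  have hTd : T.PosDef := PosDef.one.add_posSemidef hY
  have hu : IsUnit T.det := isUnit_iff_ne_zero.2 hTd.det_pos.ne'
  have e1 : 1 + (Y + Z) = T * (1 + (T⁻¹ * Bᴴ) * B) := by
    rw [mul_add, mul_one, ← mul_assoc, ← mul_assoc, mul_nonsing_inv _ hu, one_mul, hB, hT,
      add_assoc]
  rw [e1, det_mul, det_one_add_mul_comm, hB, det_one_add_mul_comm Bᴴ B]
  refine mul_le_mul_of_nonneg_left ?_ hTd.det_pos.le
  have hinv : (T⁻¹).PosSemidef := hTd.inv.posSemidef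
  have hherm : (T⁻¹)ᴴ = T⁻¹ := hinv.1
  have h1 : (1 - T⁻¹).PosSemidef := by
    have h2 : (Y + Yᴴ * Y).PosSemidef := hY.add (posSemidef_conjTranspose_mul_self Y)
    have h3 := h2.mul_mul_conjTranspose_same T⁻¹
    have hYY : Yᴴ = Y := hY.1
    have e2 : Y + Y * Y = T * (T - 1) := by rw [hT]; noncomm_ring
    rw [hherm, hYY, e2, ← mul_assoc, nonsing_inv_mul _ hu, one_mul, sub_mul,
      mul_nonsing_inv _ hu, one_mul] at h3
    exact h3
  have h4 := h1.mul_mul_conjTranspose_same B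
  have h5 : (1 + B * T⁻¹ * Bᴴ).PosDef :=
    PosDef.one.add_posSemidef (hinv.mul_mul_conjTranspose_same B)
  have h6 := det_le_det_add h5 h4
  have e3 : 1 + B * T⁻¹ * Bᴴ + B * (1 - T⁻¹) * Bᴴ = 1 + B * Bᴴ := by noncomm_ring
  rw [e3] at h6
  rw [← mul_assoc]
  exact h6

theorem det_key0 {X₁ X₂ : Matrix ι ι ℝ} (h₁ : X₁.PosSemidef) (h₂ : X₂.PosSemidef) :
    (3125 / 8192 : ℝ) ^ Fintype.card ι * ((1 / 2 : ℝ) • (X₁ + X₂)).det ^ 3 ≤
      (((3 / 8 : ℝ) • X₁ + (5 / 8 : ℝ) • 1).det * ((3 / 8 : ℝ) • X₂ + (5 / 8 : ℝ) • 1).det) ^ 4 := by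
  have hY₁ : ((3 / 5 : ℝ) • X₁).PosSemidef := h₁.smul (by norm_num)
  have hY₂ : ((3 / 5 : ℝ) • X₂).PosSemidef := h₂.smul (by norm_num)
  have e : ∀ X : Matrix ι ι ℝ, (3 / 8 : ℝ) • X + (5 / 8 : ℝ) • (1 : Matrix ι ι ℝ) =
      (5 / 8 : ℝ) • (1 + (3 / 5 : ℝ) • X) := by
    intro X; rw [smul_add, smul_smul, add_comm]; norm_num
  have e' : (3 / 5 : ℝ) • X₁ + (3 / 5 : ℝ) • X₂ = (6 / 5 : ℝ) • ((1 / 2 : ℝ) • (X₁ + X₂)) := by
    rw [smul_smul, smul_add]; norm_num
  have h3 := det_submod hY₁ hY₂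
  have h4 := det_amgm (hY₁.add hY₂)
  have h5 : 0 ≤ (1 + ((3 / 5 : ℝ) • X₁ + (3 / 5 : ℝ) • X₂)).det :=
    zero_le_one.trans (one_le_det_one_add (hY₁.add hY₂))
  have h6 := pow_le_pow_left₀ h5 h3 4
  rw [e, e, det_smul (1 + (3 / 5 : ℝ) • X₁), det_smul (1 + (3 / 5 : ℝ) • X₂)]
  have e'' : ((3 / 5 : ℝ) • X₁ + (3 / 5 : ℝ) • X₂).det =
      (6 / 5 : ℝ) ^ Fintype.card ι * ((1 / 2 : ℝ) • (X₁ + X₂)).det := by
    rw [e', det_smul]
  rw [e''] at h4
  set m := Fintype.card ι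
  set a := (1 + (3 / 5 : ℝ) • X₁).det
  set b := (1 + (3 / 5 : ℝ) • X₂).det
  set d := ((1 / 2 : ℝ) • (X₁ + X₂)).det
  have h7 := h4.trans h6
  have e1 : ((5 / 8 : ℝ) ^ m * a * ((5 / 8) ^ m * b)) ^ 4 = ((5 / 8 : ℝ) ^ m) ^ 8 * (a * b) ^ 4 := by
    ring
  have e2 : (3125 / 8192 : ℝ) ^ m * d ^ 3 =
      ((5 / 8 : ℝ) ^ m) ^ 8 * ((256 / 27) ^ m * ((6 / 5) ^ m * d) ^ 3) := by
    have : (3125 / 8192 : ℝ) = (5 / 8) ^ 8 * (256 / 27) * (6 / 5) ^ 3 := by norm_num
    rw [this, mul_pow, mul_pow, ← pow_mul, ← pow_mul, mul_comm 8 m, mul_comm 3 m, pow_mul, pow_mul]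
    ring
  rw [e1, e2]
  exact mul_le_mul_of_nonneg_left h7 (by positivity)

theorem det_key1 {G A₁ A₂ : Matrix ι ι ℝ} (hG : G.PosDef) (h₁ : A₁.PosSemidef)
    (h₂ : A₂.PosSemidef) :
    (3125 / 8192 : ℝ) ^ Fintype.card ι * ((1 / 2 : ℝ) • (A₁ + A₂)).det ^ 3 * G.det ^ 5 ≤
      (((3 / 8 : ℝ) • A₁ + (5 / 8 : ℝ) • G).det * ((3 / 8 : ℝ) • A₂ + (5 / 8 : ℝ) • G).det) ^ 4 := by
  obtain ⟨N, hN⟩ := exists_normalizer hG
  have h0 := det_key0 (h₁.mul_mul_conjTranspose_same N) (h₂.mul_mul_conjTranspose_same N)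
  have e1 : ∀ A : Matrix ι ι ℝ, (3 / 8 : ℝ) • (N * A * Nᴴ) + (5 / 8 : ℝ) • (1 : Matrix ι ι ℝ) =
      N * ((3 / 8 : ℝ) • A + (5 / 8 : ℝ) • G) * Nᴴ := by
    intro A
    rw [← hN, mul_add, add_mul, Matrix.mul_smul, Matrix.mul_smul, Matrix.smul_mul, Matrix.smul_mul]
  have e2 : (1 / 2 : ℝ) • (N * A₁ * Nᴴ + N * A₂ * Nᴴ) = N * ((1 / 2 : ℝ) • (A₁ + A₂)) * Nᴴ := by
    rw [Matrix.mul_smul, Matrix.smul_mul, mul_add, add_mul]
  have h1 : N.det ^ 2 * G.det = 1 := by rw [← det_conj, hN, det_one]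
  rw [e1, e1, e2, det_conj, det_conj, det_conj] at h0
  set c := (3125 / 8192 : ℝ) ^ Fintype.card ι
  set a := ((3 / 8 : ℝ) • A₁ + (5 / 8 : ℝ) • G).det
  set b := ((3 / 8 : ℝ) • A₂ + (5 / 8 : ℝ) • G).det
  set d := ((1 / 2 : ℝ) • (A₁ + A₂)).det
  set u := N.det ^ 2
  set g := G.det
  have hg : 0 < g := hG.det_pos
  have h3 := mul_le_mul_of_nonneg_right h0 (by positivity : 0 ≤ g ^ 8)
  have e3 : c * (u * d) ^ 3 * g ^ 8 = c * d ^ 3 * g ^ 5 * (u * g) ^ 3 := by ring
  have e4 : (u * a * (u * b)) ^ 4 * g ^ 8 = (a * b) ^ 4 * (u * g) ^ 8 := by ring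
  rw [e3, e4, h1] at h3
  simpa using h3

theorem det_key2 {P H₁ H₂ : Matrix ι ι ℝ} (hP : P.PosSemidef) (hR : (1 - P).PosSemidef)
    (h₁ : H₁.PosSemidef) (h₂ : H₂.PosSemidef) :
    (3125 / 8192 : ℝ) ^ Fintype.card ι * (((1 / 2 : ℝ) • (H₁ + H₂)).det * P.det) ^ 3 *
        (1 - P).det ^ 5 ≤
      (((3 / 8 : ℝ) • (H₁ * P) + (5 / 8 : ℝ) • (1 - P)).det *
        ((3 / 8 : ℝ) • (H₂ * P) + (5 / 8 : ℝ) • (1 - P)).det) ^ 4 := by
  rcases hP.det_nonneg.eq_or_lt with h0 | hp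
  · rw [← h0]
    simp only [mul_zero, ne_eq, OfNat.ofNat_ne_zero, not_false_eq_true, zero_pow, zero_mul]
    positivity
  rcases hR.det_nonneg.eq_or_lt with h0 | hr
  · rw [← h0]
    simp only [mul_zero, ne_eq, OfNat.ofNat_ne_zero, not_false_eq_true, zero_pow]
    positivity
  have hPP : Pᴴ = P := hP.1
  have hRR : (1 - P)ᴴ = 1 - P := hR.1
  have hG0 : (P * (1 - P)).PosSemidef := by
    have h3 := (hR.mul_mul_conjTranspose_same P).add (hP.mul_mul_conjTranspose_same (1 - P))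
    rw [hPP, hRR] at h3
    have e : P * (1 - P) * P + (1 - P) * P * (1 - P) = P * (1 - P) := by noncomm_ring
    rwa [e] at h3
  have hG : (P * (1 - P)).PosDef :=
    hG0.posDef_iff_det_ne_zero.2 (by rw [det_mul]; positivity)
  have h3 := det_key1 hG (h₁.mul_mul_conjTranspose_same P) (h₂.mul_mul_conjTranspose_same P)
  have e1 : ∀ H : Matrix ι ι ℝ, (3 / 8 : ℝ) • (P * H * Pᴴ) + (5 / 8 : ℝ) • (P * (1 - P)) =
      P * ((3 / 8 : ℝ) • (H * P) + (5 / 8 : ℝ) • (1 - P)) := by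
    intro H
    rw [hPP, mul_add, Matrix.mul_smul, Matrix.mul_smul, mul_assoc]
  have e2 : (1 / 2 : ℝ) • (P * H₁ * Pᴴ + P * H₂ * Pᴴ) = P * ((1 / 2 : ℝ) • (H₁ + H₂)) * Pᴴ := by
    rw [Matrix.mul_smul, Matrix.smul_mul, mul_add, add_mul]
  rw [e1, e1, e2, det_conj, det_mul, det_mul, det_mul] at h3
  set c := (3125 / 8192 : ℝ) ^ Fintype.card ι
  set a := ((3 / 8 : ℝ) • (H₁ * P) + (5 / 8 : ℝ) • (1 - P)).det
  set b := ((3 / 8 : ℝ) • (H₂ * P) + (5 / 8 : ℝ) • (1 - P)).det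
  set d := ((1 / 2 : ℝ) • (H₁ + H₂)).det
  set u := P.det
  set g := (1 - P).det
  have e3 : c * (u ^ 2 * d) ^ 3 * (u * g) ^ 5 = u ^ 8 * (c * (d * u) ^ 3 * g ^ 5) := by ring
  have e4 : (u * a * (u * b)) ^ 4 = u ^ 8 * (a * b) ^ 4 := by ring
  rw [e3, e4] at h3
  exact le_of_mul_le_mul_left h3 (by positivity)

section CLM

variable {E : Type*} [NormedAddCommGroup E] [InnerProductSpace ℝ E] [FiniteDimensional ℝ E]

theorem det_key_clm {S H₁ H₂ : E →L[ℝ] E} (hS : (S : E →ₗ[ℝ] E).IsPositive)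
    (hS' : (1 - (S : E →ₗ[ℝ] E)).IsPositive) (h₁ : (H₁ : E →ₗ[ℝ] E).IsPositive)
    (h₂ : (H₂ : E →ₗ[ℝ] E).IsPositive) :
    (3125 / 8192 : ℝ) ^ Module.finrank ℝ E *
        (|((1 / 2 : ℝ) • (H₁ + H₂)).det| * |(1 - S).det|) ^ 3 * |S.det| ^ 5 ≤
      (|((3 / 8 : ℝ) • (H₁.comp (1 - S)) + (5 / 8 : ℝ) • S).det| *
        |((3 / 8 : ℝ) • (H₂.comp (1 - S)) + (5 / 8 : ℝ) • S).det|) ^ 4 := by
  set b := stdOrthonormalBasis ℝ E
  set M : (E →ₗ[ℝ] E) ≃ₐ[ℝ] Matrix _ _ ℝ := LinearMap.toMatrixAlgEquiv b.toBasis with hM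
  have hpos : ∀ A : E →ₗ[ℝ] E, A.IsPositive → (M A).PosSemidef := fun A hA =>
    (LinearMap.posSemidef_toMatrix_iff b).2 hA
  have hdet : ∀ A : E →L[ℝ] E, A.det = (M (A : E →ₗ[ℝ] E)).det := fun A =>
    (LinearMap.det_toMatrix b.toBasis _).symm
  have hP := hpos _ hS'
  have hR : (1 - M (1 - (S : E →ₗ[ℝ] E))).PosSemidef := by
    rw [map_sub, map_one, sub_sub_cancel]; exact hpos _ hS
  have h := det_key2 hP hR (hpos _ h₁) (hpos _ h₂)
  have e0 : 1 - M (1 - (S : E →ₗ[ℝ] E)) = M S := by rw [map_sub, map_one, sub_sub_cancel]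
  rw [e0, Fintype.card_fin] at h
  have e1 : ((1 / 2 : ℝ) • (H₁ + H₂)).det = ((1 / 2 : ℝ) • (M H₁ + M H₂)).det := by
    rw [hdet, ← map_add, ← map_smul]; rfl
  have e2 : (1 - S).det = (M (1 - (S : E →ₗ[ℝ] E))).det := by rw [hdet]; rfl
  have e3 : ∀ H : E →L[ℝ] E, ((3 / 8 : ℝ) • (H.comp (1 - S)) + (5 / 8 : ℝ) • S).det =
      ((3 / 8 : ℝ) • (M H * M (1 - (S : E →ₗ[ℝ] E))) + (5 / 8 : ℝ) • M S).det := by
    intro H
    rw [hdet, ← map_mul, ← map_smul, ← map_smul, ← map_add]; rfl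
  have n1 : 0 ≤ ((1 / 2 : ℝ) • (M H₁ + M H₂)).det :=
    (((hpos _ h₁).add (hpos _ h₂)).smul (by norm_num : (0 : ℝ) ≤ 1 / 2)).det_nonneg
  rw [e1, e2, e3, e3, hdet S, abs_of_nonneg n1, abs_of_nonneg hP.det_nonneg,
    abs_of_nonneg (hpos _ hS).det_nonneg, ← abs_mul, Even.pow_abs (by norm_num)]
  exact h

end CLM

end Pool.Agent.MP_5f4cdd_gt.T4

end

section

set_option autoImplicit false
set_option linter.unusedSectionVars false
open Set Filter Topology MeasureTheory Metric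
open scoped RealInnerProductSpace NNReal ENNReal

namespace Pool.Agent.MP_5f4cdd_gt.T4

theorem enn_amgm (a b : ℝ≥0∞) : 4 * (a * b) ≤ (a + b) ^ 2 := by
  rcases eq_or_ne a ⊤ with rfl | ha
  · simp
  rcases eq_or_ne b ⊤ with rfl | hb
  · simp
  lift a to ℝ≥0 using ha
  lift b to ℝ≥0 using hb
  norm_cast
  rw [← NNReal.coe_le_coe]
  push_cast
  nlinarith [sq_nonneg ((a : ℝ) - b)]

variable {E : Type*} [NormedAddCommGroup E] [InnerProductSpace ℝ E] [FiniteDimensional ℝ E]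
  [MeasurableSpace E] [BorelSpace E]

theorem comb_lower {K S : Set E} {u v : E → ℝ} {k s : E → E} (hk : IsProx K u k)
    (hs : IsProx S v s) {U : Set E} (hU : MeasurableSet U)
    (hd : ∀ w ∈ U, DifferentiableAt ℝ s w ∧ DifferentiableAt ℝ k (w - s w)) (F : E → ℝ≥0∞) :
    ∫⁻ w in U, jac (fun w => (3 / 8 : ℝ) • k (w - s w) + (5 / 8 : ℝ) • s w) w *
      F ((3 / 8 : ℝ) • k (w - s w) + (5 / 8 : ℝ) • s w) ≤ ∫⁻ y, F y := by
  have hdiff : ∀ w ∈ U, DifferentiableAt ℝ
      (fun w => (3 / 8 : ℝ) • k (w - s w) + (5 / 8 : ℝ) • s w) w := fun w hw =>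
    (((hd w hw).2.comp w (differentiableAt_id.sub (hd w hw).1)).const_smul (3 / 8 : ℝ)).add
      ((hd w hw).1.const_smul (5 / 8 : ℝ))
  refine area_lower volume hU hdiff (fun w hw w' _ he hne => ?_) F
  have a1 := hk.firm (w - s w) (w' - s w')
  have a2 := hs.firm w w'
  have a3 : s w - s w' = -((3 / 5 : ℝ) • (k (w - s w) - k (w' - s w'))) := by
    have : (5 / 8 : ℝ) • (s w - s w') = (5 / 8 : ℝ) • -((3 / 5 : ℝ) •
        (k (w - s w) - k (w' - s w'))) := by
      have h := sub_eq_zero.2 he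
      rw [← sub_eq_zero, ← h]
      module
    exact smul_right_injective E (by norm_num) this
  have a4 : (w - s w) - (w' - s w') = (w - w') - (s w - s w') := by abel
  have a5 : 0 ≤ ⟪s w - s w', (w - s w) - (w' - s w')⟫ := by
    rw [a4, inner_sub_right, real_inner_self_eq_norm_sq]; linarith
  rw [a3, inner_neg_left, inner_smul_left] at a5
  simp only [conj_trivial] at a5
  have a6 : ‖k (w - s w) - k (w' - s w')‖ ^ 2 = 0 :=
    le_antisymm (by linarith) (by positivity)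
  have a7 : k (w - s w) - k (w' - s w') = 0 := by simpa using a6
  have a8 : s w = s w' := by rw [← sub_eq_zero, a3, a7]; simp
  have a9 : k (w - s w) = k (w' - s w') := sub_eq_zero.1 a7
  refine det_eq_zero_of_segment (d := w' - w) (hdiff w hw) (sub_ne_zero.2 hne.symm)
    fun t ht ht1 => ?_
  have b1 := hs.fibre a8 ht ht1
  have b2 := hk.fibre a9 ht ht1
  have b3 : w + t • (w' - w) - s w = w - s w + t • (w' - s w' - (w - s w)) := by
    rw [← a8]; module
  simp only [b1, b3, b2]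

theorem jac_key {K₁ K₂ S : Set E} {u₁ u₂ v : E → ℝ} {k₁ k₂ s : E → E} (h₁ : IsProx K₁ u₁ k₁)
    (h₂ : IsProx K₂ u₂ k₂) (hs : IsProx S v s) {w : E} (ds : DifferentiableAt ℝ s w)
    (d₁ : DifferentiableAt ℝ k₁ (w - s w)) (d₂ : DifferentiableAt ℝ k₂ (w - s w)) :
    ENNReal.ofReal ((3125 / 8192 : ℝ) ^ Module.finrank ℝ E) *
      (jac (fun θ => (1 / 2 : ℝ) • (k₁ θ + k₂ θ)) (w - s w) * jac (fun w => w - s w) w) ^ 3 *
        jac s w ^ 5 ≤
      (jac (fun w => (3 / 8 : ℝ) • k₁ (w - s w) + (5 / 8 : ℝ) • s w) w *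
        jac (fun w => (3 / 8 : ℝ) • k₂ (w - s w) + (5 / 8 : ℝ) • s w) w) ^ 4 := by
  have hJ : HasFDerivAt (fun w => w - s w) (1 - fderiv ℝ s w) w :=
    (hasFDerivAt_id w).sub ds.hasFDerivAt
  have hz : HasFDerivAt (fun θ => (1 / 2 : ℝ) • (k₁ θ + k₂ θ))
      ((1 / 2 : ℝ) • (fderiv ℝ k₁ (w - s w) + fderiv ℝ k₂ (w - s w))) (w - s w) :=
    (d₁.hasFDerivAt.add d₂.hasFDerivAt).const_smul (1 / 2 : ℝ)
  have hG : ∀ k : E → E, DifferentiableAt ℝ k (w - s w) →
      HasFDerivAt (fun w => (3 / 8 : ℝ) • k (w - s w) + (5 / 8 : ℝ) • s w)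
        ((3 / 8 : ℝ) • ((fderiv ℝ k (w - s w)).comp (1 - fderiv ℝ s w)) +
          (5 / 8 : ℝ) • fderiv ℝ s w) w := fun k d =>
    ((d.hasFDerivAt.comp w hJ).const_smul (3 / 8 : ℝ)).add (ds.hasFDerivAt.const_smul (5 / 8 : ℝ))
  have key := det_key_clm (hs.isPositive ds.hasFDerivAt) (hs.isPositive_co ds.hasFDerivAt)
    (h₁.isPositive d₁.hasFDerivAt) (h₂.isPositive d₂.hasFDerivAt)
  unfold jac
  rw [hJ.fderiv, hz.fderiv, (hG k₁ d₁).fderiv, (hG k₂ d₂).fderiv,
    ← ENNReal.ofReal_mul (abs_nonneg _), ← ENNReal.ofReal_mul (abs_nonneg _),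
    ← ENNReal.ofReal_pow (by positivity), ← ENNReal.ofReal_pow (by positivity),
    ← ENNReal.ofReal_pow (by positivity), ← ENNReal.ofReal_mul (by positivity),
    ← ENNReal.ofReal_mul (by positivity)]
  exact ENNReal.ofReal_le_ofReal key

theorem coupling {S : Set E} (hS : IsCompact S) (hSc : Convex ℝ S) (hne : S.Nonempty)
    {d g : E → ℝ≥0∞} (hd : Measurable d) (hg : Measurable g) {ρ : ℝ≥0}
    (hd0 : ∀ θ ∉ closedBall (0 : E) ρ, d θ = 0) (hg0 : ∀ x ∉ S, g x = 0)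
    (hd1 : ∫⁻ θ, d θ = 1) (hg1 : ∫⁻ x, g x = 1) {D : Set E} (hD : MeasurableSet D)
    (hD0 : volume Dᶜ = 0) :
    ∃ (v : E → ℝ) (s : E → E), IsProx S v s ∧
      1 ≤ ∫⁻ w in {w | DifferentiableAt ℝ s w} ∩ (fun w => w - s w) ⁻¹' D,
        min (jac (fun w => w - s w) w * d (w - s w)) (jac s w * g (s w)) := by
  set π : Measure E := volume.withDensity d with hπ
  set μ : Measure E := volume.withDensity g with hμ
  have : IsProbabilityMeasure π := ⟨by rw [hπ, withDensity_apply', Measure.restrict_univ, hd1]⟩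
  have : IsProbabilityMeasure μ := ⟨by rw [hμ, withDensity_apply', Measure.restrict_univ, hg1]⟩
  have hac : π ≪ volume := withDensity_absolutelyContinuous _ _
  have hπ0 : π (closedBall 0 ρ)ᶜ = 0 := by
    rw [hπ, withDensity_apply',
      setLIntegral_congr_fun measurableSet_closedBall.compl (g := fun _ => 0) hd0]
    simp
  have hμ0 : μ Sᶜ = 0 := by
    rw [hμ, withDensity_apply',
      setLIntegral_congr_fun hS.measurableSet.compl (g := fun _ => 0) hg0]
    simp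
  obtain ⟨v, hvc, hv, T, hT, hmap, hae⟩ := exists_brenier hS hne hμ0 hπ0 hac
  obtain ⟨s, hs⟩ := exists_isProx hS hne (hvc.subset (subset_univ S) hSc) hv.continuousOn
  refine ⟨v, s, hs, ?_⟩
  set J : E → E := fun w => w - s w with hJ
  have hJc : Continuous J := hs.lipschitz_co.continuous
  have h1 : ∀ᵐ θ ∂π, s (θ + T θ) = T θ ∧ J (θ + T θ) = θ := by
    filter_upwards [hae] with θ hθ
    have : s (θ + T θ) = T θ := hs.eq_of hθ.1 fun x hx => by
      rw [add_sub_cancel_right]; exact hθ.2 x hx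
    exact ⟨this, by simp [hJ, this]⟩
  set U₀ : Set E := {w | DifferentiableAt ℝ s w} ∩ J ⁻¹' D with hU₀
  have hU₀m : MeasurableSet U₀ :=
    (measurableSet_of_differentiableAt ℝ s).inter (hJc.measurable hD)
  have h2 : ∀ᵐ θ ∂π, θ + T θ ∈ U₀ := by
    have n1 : volume (J '' {w | DifferentiableAt ℝ s w}ᶜ) = 0 :=
      lip_image_null volume hs.lipschitz_co hs.lipschitz.ae_differentiableAt
    have n2 : ∀ᵐ θ ∂π, θ ∉ J '' {w | DifferentiableAt ℝ s w}ᶜ :=
      measure_eq_zero_iff_ae_notMem.1 (hac n1)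
    have n3 : ∀ᵐ θ ∂π, θ ∈ D := hac hD0
    filter_upwards [h1, n2, n3] with θ a1 a2 a3
    refine ⟨?_, ?_⟩
    · by_contra hc
      exact a2 ⟨_, hc, a1.2⟩
    · rw [mem_preimage, a1.2]; exact a3
  set p : E → ℝ≥0∞ := fun w => jac J w * d (J w) with hp
  set q : E → ℝ≥0∞ := fun w => jac s w * g (s w) with hq
  have hpm : Measurable p := (measurable_jac J).mul (hd.comp hJc.measurable)
  have hqm : Measurable q := (measurable_jac s).mul (hg.comp hs.continuous.measurable)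
  have hP : ∀ U : Set E, MeasurableSet U → U ⊆ U₀ → π {θ | θ + T θ ∈ U} ≤ ∫⁻ w in U, p w := by
    intro U hU hUU
    calc π {θ | θ + T θ ∈ U} ≤ π (J '' U) := by
          refine measure_mono_ae ?_
          filter_upwards [h1] with θ a1 a2
          exact ⟨_, a2, a1.2⟩
      _ = ∫⁻ θ in J '' U, d θ := withDensity_apply' _ _
      _ ≤ _ := area_upper volume hJc.measurable hU
          (fun w hw => differentiableAt_id.sub (hUU hw).1) hd
  have hQ : ∀ U : Set E, MeasurableSet U → U ⊆ U₀ → π {θ | θ + T θ ∈ U} ≤ ∫⁻ w in U, q w := by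
    intro U hU hUU
    calc π {θ | θ + T θ ∈ U} ≤ π (T ⁻¹' (s '' U)) := by
          refine measure_mono_ae ?_
          filter_upwards [h1] with θ a1 a2
          exact ⟨_, a2, a1.1⟩
      _ ≤ π.map T (s '' U) := Measure.le_map_apply hT.aemeasurable _
      _ = ∫⁻ θ in s '' U, g θ := by rw [hmap]; exact withDensity_apply' _ _
      _ ≤ _ := area_upper volume hs.continuous.measurable hU (fun w hw => (hUU hw).1) hg
  have hA : MeasurableSet {w | p w ≤ q w} := measurableSet_le hpm hqm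
  calc (1 : ℝ≥0∞) = π univ := measure_univ.symm
    _ ≤ π ({θ | θ + T θ ∈ U₀ ∩ {w | p w ≤ q w}} ∪ {θ | θ + T θ ∈ U₀ \ {w | p w ≤ q w}}) := by
        refine measure_mono_ae ?_
        filter_upwards [h2] with θ a1 _
        by_cases hc : θ + T θ ∈ {w | p w ≤ q w}
        · exact Or.inl ⟨a1, hc⟩
        · exact Or.inr ⟨a1, hc⟩
    _ ≤ π {θ | θ + T θ ∈ U₀ ∩ {w | p w ≤ q w}} + π {θ | θ + T θ ∈ U₀ \ {w | p w ≤ q w}} :=
        measure_union_le _ _
    _ ≤ (∫⁻ w in U₀ ∩ {w | p w ≤ q w}, p w) + ∫⁻ w in U₀ \ {w | p w ≤ q w}, q w :=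
        add_le_add (hP _ (hU₀m.inter hA) inter_subset_left) (hQ _ (hU₀m.diff hA) sdiff_subset)
    _ = (∫⁻ w in U₀ ∩ {w | p w ≤ q w}, min (p w) (q w)) +
          ∫⁻ w in U₀ \ {w | p w ≤ q w}, min (p w) (q w) := by
        congr 1
        · exact setLIntegral_congr_fun (hU₀m.inter hA) fun w hw => (min_eq_left hw.2).symm
        · exact setLIntegral_congr_fun (hU₀m.diff hA) fun w hw =>
            (min_eq_right (le_of_not_ge hw.2)).symm
    _ = ∫⁻ w in U₀, min (p w) (q w) := lintegral_inter_add_sdiff _ _ hA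

theorem key_core {K₁ K₂ S : Set E} {u₁ u₂ : E → ℝ} {k₁ k₂ : E → E} (h₁ : IsProx K₁ u₁ k₁)
    (h₂ : IsProx K₂ u₂ k₂) (hS : IsCompact S) (hSc : Convex ℝ S) (hne : S.Nonempty)
    {ω g F₁ F₂ : E → ℝ≥0∞} (hω : Measurable ω) (hg : Measurable g) (hF₁ : Measurable F₁)
    {M : ℝ≥0∞} (hM : M ≠ ⊤) (hωM : ∀ θ, ω θ ≤ M) (hY : ∫⁻ x in S, g x ≠ ⊤)
    (hF : ∀ θ, ∀ x ∈ S, ω θ ^ 3 * g x ^ 5 ≤
      (F₁ ((3 / 8 : ℝ) • k₁ θ + (5 / 8 : ℝ) • x) * F₂ ((3 / 8 : ℝ) • k₂ θ + (5 / 8 : ℝ) • x)) ^ 4)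
    (ρ : ℝ≥0) :
    2 ^ 8 * (ENNReal.ofReal ((3125 / 8192 : ℝ) ^ Module.finrank ℝ E) *
      (∫⁻ θ in closedBall 0 ρ, jac (fun θ => (1 / 2 : ℝ) • (k₁ θ + k₂ θ)) θ * ω θ) ^ 3 *
      (∫⁻ x in S, g x) ^ 5) ≤ ((∫⁻ y, F₁ y) + ∫⁻ y, F₂ y) ^ 8 := by
  set z : E → E := fun θ => (1 / 2 : ℝ) • (k₁ θ + k₂ θ) with hz
  set Z := ∫⁻ θ in closedBall 0 ρ, jac z θ * ω θ with hZ
  set Y := ∫⁻ x in S, g x with hYd
  set C := ENNReal.ofReal ((3125 / 8192 : ℝ) ^ Module.finrank ℝ E) with hC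
  rcases eq_or_ne Z 0 with hZ0 | hZ0
  · simp [hZ0]
  rcases eq_or_ne Y 0 with hY0 | hY0
  · simp [hY0]
  have hZt : Z ≠ ⊤ := by
    obtain ⟨B, hB⟩ := exists_det_bound (E := E) (‖(1 / 2 : ℝ)‖₊ * (1 + 1) : ℝ≥0)
    have hzl : LipschitzWith (‖(1 / 2 : ℝ)‖₊ * (1 + 1)) z :=
      (lipschitzWith_smul (1 / 2 : ℝ)).comp (h₁.lipschitz.add h₂.lipschitz)
    have : Z ≤ ∫⁻ _ in closedBall (0 : E) ρ, ENNReal.ofReal B * M :=
      lintegral_mono fun θ => mul_le_mul'
        (ENNReal.ofReal_le_ofReal (hB _ (norm_fderiv_le_of_lipschitz ℝ hzl))) (hωM θ)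
    refine ne_top_of_le_ne_top ?_ this
    rw [setLIntegral_const]
    exact ENNReal.mul_ne_top (ENNReal.mul_ne_top ENNReal.ofReal_ne_top hM)
      measure_closedBall_lt_top.ne
  set d : E → ℝ≥0∞ := fun θ => Z⁻¹ * (closedBall 0 ρ).indicator (fun θ => jac z θ * ω θ) θ with hd
  set g' : E → ℝ≥0∞ := fun x => Y⁻¹ * S.indicator g x with hg'
  have hdm0 : Measurable ((closedBall (0 : E) ρ).indicator fun θ => jac z θ * ω θ) :=
    ((measurable_jac z).mul hω).indicator measurableSet_closedBall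
  have hgm0 : Measurable (S.indicator g) := hg.indicator hS.measurableSet
  obtain ⟨v, s, hs, hone⟩ := coupling hS hSc hne (d := d) (g := g') (hdm0.const_mul _)
    (hgm0.const_mul _) (ρ := ρ) (fun θ hθ => by simp [hd, indicator_of_notMem hθ])
    (fun x hx => by simp [hg', indicator_of_notMem hx])
    (by rw [hd, lintegral_const_mul _ hdm0, lintegral_indicator measurableSet_closedBall,
      ENNReal.inv_mul_cancel hZ0 hZt])
    (by rw [hg', lintegral_const_mul _ hgm0, lintegral_indicator hS.measurableSet,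
      ENNReal.inv_mul_cancel hY0 hY])
    (D := {θ | DifferentiableAt ℝ k₁ θ} ∩ {θ | DifferentiableAt ℝ k₂ θ})
    ((measurableSet_of_differentiableAt ℝ k₁).inter (measurableSet_of_differentiableAt ℝ k₂))
    (by
      rw [compl_inter]
      exact measure_union_null h₁.lipschitz.ae_differentiableAt h₂.lipschitz.ae_differentiableAt)
  set U := {w | DifferentiableAt ℝ s w} ∩ (fun w => w - s w) ⁻¹'
    ({θ | DifferentiableAt ℝ k₁ θ} ∩ {θ | DifferentiableAt ℝ k₂ θ}) with hU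
  have hJc : Continuous fun w => w - s w := hs.lipschitz_co.continuous
  have hUm : MeasurableSet U := (measurableSet_of_differentiableAt ℝ s).inter (hJc.measurable
    ((measurableSet_of_differentiableAt ℝ k₁).inter (measurableSet_of_differentiableAt ℝ k₂)))
  set κ : ℝ≥0∞ := (2 ^ 8 * (C * Z ^ 3 * Y ^ 5)) ^ ((8 : ℕ) : ℝ)⁻¹ with hκ
  have hκ8 : κ ^ 8 = 2 ^ 8 * (C * Z ^ 3 * Y ^ 5) := ENNReal.rpow_inv_natCast_pow (by norm_num) _
  have hκt : κ ≠ ⊤ := by
    intro h
    rw [h] at hκ8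
    have : 2 ^ 8 * (C * Z ^ 3 * Y ^ 5) ≠ ⊤ := by
      have : C ≠ ⊤ := ENNReal.ofReal_ne_top
      finiteness
    exact this (by rw [← hκ8]; simp)
  rw [← hκ8]
  refine pow_le_pow_left' ?_ 8
  set G₁ : E → E := fun w => (3 / 8 : ℝ) • k₁ (w - s w) + (5 / 8 : ℝ) • s w with hG₁
  set G₂ : E → E := fun w => (3 / 8 : ℝ) • k₂ (w - s w) + (5 / 8 : ℝ) • s w with hG₂
  have hG₁c : Continuous G₁ :=
    ((h₁.continuous.comp hJc).const_smul (3 / 8 : ℝ)).add (hs.continuous.const_smul (5 / 8 : ℝ))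
  have l₁ := comb_lower h₁ hs hUm (fun w hw => ⟨hw.1, hw.2.1⟩) F₁
  have l₂ := comb_lower h₂ hs hUm (fun w hw => ⟨hw.1, hw.2.2⟩) F₂
  calc κ = κ * 1 := (mul_one κ).symm
    _ ≤ κ * ∫⁻ w in U, min (jac (fun w => w - s w) w * d (w - s w)) (jac s w * g' (s w)) := by
        gcongr
    _ = ∫⁻ w in U, κ * min (jac (fun w => w - s w) w * d (w - s w)) (jac s w * g' (s w)) :=
        (lintegral_const_mul' _ _ hκt).symm
    _ ≤ ∫⁻ w in U, (jac G₁ w * F₁ (G₁ w) + jac G₂ w * F₂ (G₂ w)) := by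
        refine setLIntegral_mono' hUm fun w hw => ?_
        refine (ENNReal.pow_le_pow_left_iff (by norm_num : (8 : ℕ) ≠ 0)).1 ?_
        set m := min (jac (fun w => w - s w) w * d (w - s w)) (jac s w * g' (s w)) with hm
        have m1 : Z * m ≤ jac z (w - s w) * jac (fun w => w - s w) w * ω (w - s w) := by
          calc Z * m ≤ Z * (jac (fun w => w - s w) w * (Z⁻¹ * (jac z (w - s w) * ω (w - s w)))) := by
                gcongr
                refine (min_le_left _ _).trans ?_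
                simp only [hd]
                gcongr
                exact indicator_le_self _ _ _
            _ = (Z * Z⁻¹) * (jac z (w - s w) * jac (fun w => w - s w) w * ω (w - s w)) := by ring
            _ = _ := by rw [ENNReal.mul_inv_cancel hZ0 hZt, one_mul]
        have m2 : Y * m ≤ jac s w * g (s w) := by
          calc Y * m ≤ Y * (jac s w * (Y⁻¹ * g (s w))) := by
                gcongr
                refine (min_le_right _ _).trans ?_
                simp only [hg']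
                gcongr
                exact indicator_le_self _ _ _
            _ = (Y * Y⁻¹) * (jac s w * g (s w)) := by ring
            _ = _ := by rw [ENNReal.mul_inv_cancel hY0 hY, one_mul]
        have m3 := jac_key h₁ h₂ hs hw.1 hw.2.1 hw.2.2
        have m4 := hF (w - s w) (s w) (hs.mem w)
        calc (κ * m) ^ 8 = 2 ^ 8 * (C * (Z * m) ^ 3 * (Y * m) ^ 5) := by rw [mul_pow, hκ8]; ring
          _ ≤ 2 ^ 8 * (C * (jac z (w - s w) * jac (fun w => w - s w) w * ω (w - s w)) ^ 3 *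
              (jac s w * g (s w)) ^ 5) := by gcongr
          _ = 2 ^ 8 * ((C * (jac z (w - s w) * jac (fun w => w - s w) w) ^ 3 * jac s w ^ 5) *
              (ω (w - s w) ^ 3 * g (s w) ^ 5)) := by ring
          _ ≤ 2 ^ 8 * ((jac G₁ w * jac G₂ w) ^ 4 * (F₁ (G₁ w) * F₂ (G₂ w)) ^ 4) := by gcongr
          _ = (4 * ((jac G₁ w * F₁ (G₁ w)) * (jac G₂ w * F₂ (G₂ w)))) ^ 4 := by ring
          _ ≤ ((jac G₁ w * F₁ (G₁ w) + jac G₂ w * F₂ (G₂ w)) ^ 2) ^ 4 :=
              pow_le_pow_left' (enn_amgm _ _) 4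
          _ = _ := by ring
    _ = (∫⁻ w in U, jac G₁ w * F₁ (G₁ w)) + ∫⁻ w in U, jac G₂ w * F₂ (G₂ w) :=
        lintegral_add_left ((measurable_jac G₁).mul (hF₁.comp hG₁c.measurable)) _
    _ ≤ _ := add_le_add l₁ l₂

end Pool.Agent.MP_5f4cdd_gt.T4

end

section

set_option autoImplicit false
set_option linter.unusedSectionVars false
open Set Filter Topology MeasureTheory Metric
open scoped RealInnerProductSpace NNReal ENNReal Pointwise

namespace Pool.Agent.MP_5f4cdd_gt.T4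

variable {E : Type*} [NormedAddCommGroup E] [InnerProductSpace ℝ E] [FiniteDimensional ℝ E]
  [MeasurableSpace E] [BorelSpace E]

/-- the log-concave density -/
noncomputable def dens (K : Set E) (φ : E → ℝ) : E → ℝ≥0∞ :=
  K.indicator fun x => ENNReal.ofReal (Real.exp (-φ x))

theorem measurable_dens {K : Set E} (hK : IsCompact K) {φ : E → ℝ} (hφ : Continuous φ) :
    Measurable (dens K φ) :=
  Measurable.indicator (by fun_prop) hK.measurableSet

theorem dens_of_mem {K : Set E} {φ : E → ℝ} {x : E} (hx : x ∈ K) :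
    dens K φ x = ENNReal.ofReal (Real.exp (-φ x)) := indicator_of_mem hx _

theorem lintegral_dens_ne_top {K : Set E} (hK : IsCompact K) {φ : E → ℝ} (hφ : Continuous φ) :
    ∫⁻ x, dens K φ x ≠ ⊤ := by
  obtain ⟨B, hB⟩ := hK.exists_bound_of_continuousOn hφ.continuousOn
  rw [dens, lintegral_indicator hK.measurableSet]
  have : ∫⁻ x in K, ENNReal.ofReal (Real.exp (-φ x)) ≤ ∫⁻ _ in K, ENNReal.ofReal (Real.exp B) :=
    setLIntegral_mono' hK.measurableSet fun x hx => ENNReal.ofReal_le_ofReal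
      (Real.exp_le_exp.2 (by linarith [abs_le.1 (hB x hx)]))
  refine ne_top_of_le_ne_top ?_ this
  rw [setLIntegral_const]
  exact ENNReal.mul_ne_top ENNReal.ofReal_ne_top hK.measure_lt_top.ne

theorem IsProx.neg {K : Set E} {v : E → ℝ} {p : E → E} (h : IsProx K v p) :
    IsProx (-K) (fun x => v (-x)) (fun w => -p (-w)) := by
  intro w
  refine ⟨by simpa using h.mem (-w), fun x hx => ?_⟩
  have := (h (-w)).2 (-x) hx
  have e1 : x - -p (-w) = -(-x - p (-w)) := by abel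
  have e2 : w - -p (-w) = -(-w - p (-w)) := by abel
  simp only [neg_neg]
  rw [e1, e2, inner_neg_neg]
  exact this

theorem prox_surj {K : Set E} {v : E → ℝ} {k : E → E} (hk : IsProx K v k) (hK : IsCompact K)
    (hv : Continuous v) {z : E} (hz : z ∈ interior ((1 / 2 : ℝ) • (K - K))) :
    ∃ θ, (1 / 2 : ℝ) • (k θ + -k (-θ)) = z := by
  obtain ⟨δ, hδ, hball⟩ := Metric.mem_nhds_iff.1 (mem_interior_iff_mem_nhds.1 hz)
  obtain ⟨C, hC⟩ := hK.exists_bound_of_continuousOn (f := fun x => v x + ‖x‖ ^ 2 / 2)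
    (Continuous.continuousOn (by fun_prop))
  set g : E → ℝ := fun w => ⟪k w, w⟫ - v (k w) - ‖k w‖ ^ 2 / 2 with hg
  set G : E → ℝ := fun θ => g θ + g (-θ) - 2 * ⟪z, θ⟫ with hG
  have hder : ∀ θ, HasFDerivAt G (innerSL ℝ (k θ) + (innerSL ℝ (k (-θ))).comp (-1) -
      (2 : ℝ) • innerSL ℝ z) θ := fun θ =>
    ((hk.hasFDerivAt_pot θ).add ((hk.hasFDerivAt_pot (-θ)).comp θ (hasFDerivAt_id θ).neg)).sub
      ((innerSL ℝ z).hasFDerivAt.const_smul (2 : ℝ))
  have hcont : Continuous G := continuous_iff_continuousAt.2 fun θ => (hder θ).continuousAt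
  have hlow : ∀ θ, δ * ‖θ‖ - 2 * C ≤ G θ := by
    intro θ
    have hm : z + (δ / 2 / ‖θ‖) • θ ∈ (1 / 2 : ℝ) • (K - K) := by
      apply hball
      rw [mem_ball, dist_eq_norm, add_sub_cancel_left, norm_smul, Real.norm_eq_abs,
        abs_of_nonneg (by positivity)]
      rcases eq_or_ne ‖θ‖ 0 with h0 | h0
      · rw [h0, mul_zero]; exact hδ
      · rw [div_mul_cancel₀ _ h0]; linarith
    obtain ⟨_, ⟨a, ha, b, hb, rfl⟩, hab⟩ := hm
    have a1 := hk.max_le θ ha
    have a2 := hk.max_le (-θ) hb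
    have a3 := (abs_le.1 (hC a ha)).2
    have a4 := (abs_le.1 (hC b hb)).2
    have a5 := congrArg (fun y => ⟪y, θ⟫) hab
    simp only [inner_smul_left, inner_sub_left, inner_add_left, conj_trivial,
      real_inner_self_eq_norm_sq] at a5
    have a6 : δ / 2 / ‖θ‖ * ‖θ‖ ^ 2 = δ / 2 * ‖θ‖ := by
      rcases eq_or_ne ‖θ‖ 0 with h0 | h0
      · simp [h0]
      · field_simp
    rw [inner_neg_right] at a2
    simp only [hG, hg]
    linarith
  obtain ⟨θ, hθ⟩ := hcont.exists_forall_le_of_isBounded 0 (by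
    refine (isBounded_closedBall (x := (0 : E)) (r := (G 0 + 2 * C) / δ)).subset fun θ hθ => ?_
    rw [mem_closedBall_zero_iff, le_div_iff₀ hδ]
    have : G θ ≤ G 0 := hθ
    linarith [hlow θ])
  have h0 := (show IsLocalMin G θ from Eventually.of_forall hθ).hasFDerivAt_eq_zero (hder θ)
  refine ⟨θ, ext_inner_right ℝ fun y => ?_⟩
  have := congrArg (fun L : E →L[ℝ] ℝ => L y) h0
  simp only [sub_apply, add_apply, innerSL_apply_apply,
    ContinuousLinearMap.comp_apply, neg_apply, one_apply_eq_self,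
    inner_neg_right, smul_apply, smul_eq_mul,
    zero_apply] at this
  rw [inner_smul_left, inner_add_left, inner_neg_left]
  simp only [conj_trivial]
  linarith

theorem key_lc {K : Set E} (hK : IsCompact K) (hKc : Convex ℝ K) (h0 : (0 : E) ∈ K) {φ : E → ℝ}
    (hφc : ConvexOn ℝ K φ) (hφ : Continuous φ) {W : E → ℝ≥0∞} (hW : Measurable W)
    (hWle : ∀ z, W z = 0 ∨ ∃ a ∈ K, ∃ b ∈ K, a - b = (2 : ℝ) • z ∧
      W z ≤ ENNReal.ofReal (Real.exp (-(φ a + φ b) / 2))) :
    ENNReal.ofReal ((3125 / 8192 : ℝ) ^ Module.finrank ℝ E) * (∫⁻ z, W z) ^ 3 *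
      (∫⁻ x in K ∩ -K, ENNReal.ofReal (Real.exp (-(φ x + φ (-x)) / 2))) ^ 5 ≤
      (∫⁻ x, dens K φ x) ^ 8 := by
  set C := ENNReal.ofReal ((3125 / 8192 : ℝ) ^ Module.finrank ℝ E) with hC
  set Y := ∫⁻ x in K ∩ -K, ENNReal.ofReal (Real.exp (-(φ x + φ (-x)) / 2)) with hY
  set I := ∫⁻ x, dens K φ x with hI
  have hIt : I ≠ ⊤ := lintegral_dens_ne_top hK hφ
  have hS : IsCompact (K ∩ -K) := hK.inter hK.neg
  have hYt : Y ≠ ⊤ := by
    have := lintegral_dens_ne_top hS (φ := fun x => (φ x + φ (-x)) / 2) (by fun_prop)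
    rw [dens, lintegral_indicator hS.measurableSet] at this
    simpa only [hY, neg_div] using this
  obtain ⟨R, hR⟩ := hK.isBounded.exists_norm_le
  obtain ⟨B, hB⟩ := hK.exists_bound_of_continuousOn hφ.continuousOn
  have main : ∀ ε : ℝ, 0 < ε → C * (∫⁻ z, W z) ^ 3 * Y ^ 5 ≤
      ENNReal.ofReal (Real.exp (ε * R ^ 2 / 2)) ^ 3 * I ^ 8 := by
    intro ε hε
    obtain ⟨k, hk⟩ := exists_isProx (v := fun x => ε⁻¹ * φ x) hK ⟨0, h0⟩
      (hφc.smul (inv_pos.2 hε).le) (Continuous.continuousOn (by fun_prop))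
    have hkc := hk.continuous
    set ω : E → ℝ≥0∞ := fun θ => ENNReal.ofReal (Real.exp (-(φ (k θ) + φ (k (-θ))) / 2)) with hω
    set z : E → E := fun θ => (1 / 2 : ℝ) • (k θ + -k (-θ)) with hz
    have hcore := key_core hk hk.neg hS (hKc.inter hKc.neg) ⟨0, h0, by simpa using h0⟩
      (ω := ω) (g := fun x => ENNReal.ofReal (Real.exp (-(φ x + φ (-x)) / 2)))
      (F₁ := dens K φ) (F₂ := fun x => dens K φ (-x)) (by fun_prop) (by fun_prop)
      (measurable_dens hK hφ) (M := ENNReal.ofReal (Real.exp B)) ENNReal.ofReal_ne_top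
      (fun θ => ENNReal.ofReal_le_ofReal (Real.exp_le_exp.2 (by
        linarith [abs_le.1 (hB _ (hk.mem θ)), abs_le.1 (hB _ (hk.mem (-θ)))]))) hYt
      (fun θ x hx => by
        have hx2 : -x ∈ K := hx.2
        have e : -((3 / 8 : ℝ) • -k (-θ) + (5 / 8 : ℝ) • x) =
            (3 / 8 : ℝ) • k (-θ) + (5 / 8 : ℝ) • -x := by module
        have c1 := hφc.2 (hk.mem θ) hx.1 (by norm_num : (0 : ℝ) ≤ 3 / 8)
          (by norm_num : (0 : ℝ) ≤ 5 / 8) (by norm_num)
        have c2 := hφc.2 (hk.mem (-θ)) hx2 (by norm_num : (0 : ℝ) ≤ 3 / 8)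
          (by norm_num : (0 : ℝ) ≤ 5 / 8) (by norm_num)
        rw [e, dens_of_mem (hKc (hk.mem θ) hx.1 (by norm_num) (by norm_num) (by norm_num)),
          dens_of_mem (hKc (hk.mem (-θ)) hx2 (by norm_num) (by norm_num) (by norm_num))]
        simp only [hω]
        rw [← ENNReal.ofReal_mul (by positivity), ← ENNReal.ofReal_pow (by positivity),
          ← ENNReal.ofReal_pow (by positivity), ← ENNReal.ofReal_pow (by positivity),
          ← ENNReal.ofReal_mul (by positivity), ← Real.exp_add, ← Real.exp_nat_mul,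
          ← Real.exp_nat_mul, ← Real.exp_nat_mul, ← Real.exp_add]
        refine ENNReal.ofReal_le_ofReal (Real.exp_le_exp.2 ?_)
        simp only [smul_eq_mul] at c1 c2
        push_cast
        linarith)
    rw [lintegral_neg_eq_self (dens K φ), ← hI, ← two_mul] at hcore
    set Z := ∫⁻ θ, jac z θ * ω θ with hZ
    have hZ1 : C * Z ^ 3 * Y ^ 5 ≤ I ^ 8 := by
      have t1 : Tendsto (fun m : ℕ => ∫⁻ θ in closedBall 0 m, jac z θ * ω θ) atTop (𝓝 Z) := by
        have hmono : Monotone fun m : ℕ => closedBall (0 : E) m := fun a b hab =>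
          closedBall_subset_closedBall (by exact_mod_cast hab)
        have : Z = ⨆ m : ℕ, ∫⁻ θ in closedBall 0 m, jac z θ * ω θ := by
          rw [← setLIntegral_iUnion_of_directed _ hmono.directed_le, iUnion_closedBall_nat,
            Measure.restrict_univ]
        rw [this]
        exact tendsto_atTop_iSup fun a b hab => lintegral_mono_set (hmono hab)
      have hCY : C * Y ^ 5 ≠ ⊤ := ENNReal.mul_ne_top ENNReal.ofReal_ne_top (ENNReal.pow_ne_top hYt)
      have t2 := ((ENNReal.continuous_const_mul hCY).tendsto _).comp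
        (((ENNReal.continuous_pow 3).tendsto _).comp t1)
      rw [mul_right_comm]
      refine le_of_tendsto' t2 fun m => ?_
      have := hcore (m : ℝ≥0)
      rw [mul_pow] at this
      have := (ENNReal.mul_le_mul_iff_right (by norm_num) (by norm_num)).1 this
      rw [mul_right_comm] at this
      exact this
    have hZ2 : ∫⁻ y, W y ≤ ENNReal.ofReal (Real.exp (ε * R ^ 2 / 2)) * Z := by
      have hzl : LipschitzWith (‖(1 / 2 : ℝ)‖₊ * (1 + 1)) z :=
        (lipschitzWith_smul (1 / 2 : ℝ)).comp (hk.lipschitz.add hk.neg.lipschitz)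
      set D := {θ | DifferentiableAt ℝ z θ} with hD
      have hDm : MeasurableSet D := measurableSet_of_differentiableAt ℝ z
      have n1 : volume (z '' Dᶜ) = 0 := lip_image_null volume hzl hzl.ae_differentiableAt
      have n2 : volume (frontier ((1 / 2 : ℝ) • (K - K))) = 0 :=
        ((hKc.sub hKc).smul _).addHaar_frontier volume
      have n3 : ∀ᵐ y, y ∉ z '' Dᶜ := measure_eq_zero_iff_ae_notMem.1 n1
      have n4 : ∀ᵐ y, y ∉ frontier ((1 / 2 : ℝ) • (K - K)) := measure_eq_zero_iff_ae_notMem.1 n2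
      calc ∫⁻ y, W y = ∫⁻ y, {y | W y ≠ 0}.indicator W y := by
            refine lintegral_congr fun y => ?_
            by_cases hy : W y = 0
            · rw [indicator_of_notMem (by simpa using hy), hy]
            · rw [indicator_of_mem (by simpa using hy)]
        _ = ∫⁻ y in {y | W y ≠ 0}, W y :=
            lintegral_indicator (hW (measurableSet_singleton 0)).compl _
        _ ≤ ∫⁻ y in z '' D, W y := by
            refine lintegral_mono' (Measure.restrict_mono_ae ?_) le_rfl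
            filter_upwards [n3, n4] with y a1 a2 a3
            rcases hWle y with a4 | ⟨a, ha, b, hb, hab, -⟩
            · exact absurd a4 a3
            have a5 : y ∈ (1 / 2 : ℝ) • (K - K) :=
              ⟨a - b, ⟨a, ha, b, hb, rfl⟩, by simp only [hab, smul_smul]; norm_num⟩
            have a6 : y ∈ interior ((1 / 2 : ℝ) • (K - K)) := by
              by_contra hc
              exact a2 ⟨subset_closure a5, hc⟩
            obtain ⟨θ, hθ⟩ := prox_surj hk hK (by fun_prop) a6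
            refine ⟨θ, ?_, hθ⟩
            by_contra hc
            exact a1 ⟨θ, hc, hθ⟩
        _ ≤ ∫⁻ θ in D, jac z θ * W (z θ) :=
            area_upper volume hzl.continuous.measurable hDm (fun θ hθ => hθ) hW
        _ ≤ ∫⁻ θ, jac z θ * W (z θ) := setLIntegral_le_lintegral _ _
        _ ≤ ∫⁻ θ, ENNReal.ofReal (Real.exp (ε * R ^ 2 / 2)) * (jac z θ * ω θ) := by
            refine lintegral_mono fun θ => ?_
            rw [mul_left_comm]
            refine mul_le_mul' le_rfl ?_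
            rcases hWle (z θ) with a4 | ⟨a, ha, b, hb, hab, hle⟩
            · rw [a4]; exact zero_le
            refine hle.trans ?_
            simp only [hω]
            rw [← ENNReal.ofReal_mul (by positivity), ← Real.exp_add]
            refine ENNReal.ofReal_le_ofReal (Real.exp_le_exp.2 ?_)
            have a1 := hk.max_le θ ha
            have a2 := hk.max_le (-θ) hb
            have a5 := congrArg (fun y => ⟪y, θ⟫) hab
            simp only [hz, smul_smul, inner_smul_left, inner_sub_left, inner_add_left,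
              inner_neg_left, conj_trivial] at a5
            rw [inner_neg_right, inner_neg_right] at a2
            have b1 : ‖a‖ ^ 2 ≤ R ^ 2 := pow_le_pow_left₀ (norm_nonneg _) (hR a ha) 2
            have b2 : ‖b‖ ^ 2 ≤ R ^ 2 := pow_le_pow_left₀ (norm_nonneg _) (hR b hb) 2
            have b3 : ε⁻¹ * (φ (k θ) + φ (k (-θ))) ≤ ε⁻¹ * (φ a + φ b) + R ^ 2 := by
              nlinarith [sq_nonneg ‖k θ‖, sq_nonneg ‖k (-θ)‖]
            have b4 := mul_le_mul_of_nonneg_left b3 hε.le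
            rw [mul_add ε, ← mul_assoc, ← mul_assoc, mul_inv_cancel₀ hε.ne'] at b4
            linarith
        _ = _ := lintegral_const_mul' _ _ ENNReal.ofReal_ne_top
    calc C * (∫⁻ z, W z) ^ 3 * Y ^ 5
        ≤ C * (ENNReal.ofReal (Real.exp (ε * R ^ 2 / 2)) * Z) ^ 3 * Y ^ 5 := by gcongr
      _ = ENNReal.ofReal (Real.exp (ε * R ^ 2 / 2)) ^ 3 * (C * Z ^ 3 * Y ^ 5) := by ring
      _ ≤ _ := by gcongr
  have t1 : Tendsto (fun ε : ℝ => ENNReal.ofReal (Real.exp (ε * R ^ 2 / 2)) ^ 3 * I ^ 8) (𝓝[>] 0)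
      (𝓝 (ENNReal.ofReal (Real.exp (0 * R ^ 2 / 2)) ^ 3 * I ^ 8)) := by
    refine Tendsto.mono_left (Continuous.tendsto ?_ 0) nhdsWithin_le_nhds
    exact (ENNReal.continuous_mul_const (ENNReal.pow_ne_top hIt)).comp
      ((ENNReal.continuous_pow 3).comp (ENNReal.continuous_ofReal.comp (by fun_prop)))
  simp only [zero_mul, zero_div, Real.exp_zero, ENNReal.ofReal_one, one_pow, one_mul] at t1
  refine ge_of_tendsto t1 ?_
  filter_upwards [self_mem_nhdsWithin] with ε hε using main ε hε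

theorem rogers_shephard {K : Set E} (hK : IsCompact K) (hKc : Convex ℝ K) {φ : E → ℝ}
    (hφc : ConvexOn ℝ K φ) (hφ : Continuous φ) {W : E → ℝ≥0∞} (hW : Measurable W)
    (hWle : ∀ z, W z = 0 ∨ ∃ a ∈ K, ∃ b ∈ K, a - b = (2 : ℝ) • z ∧
      W z ≤ ENNReal.ofReal (Real.exp (-(φ a + φ b) / 2))) (hI0 : ∫⁻ x, dens K φ x ≠ 0) :
    ∫⁻ z, W z ≤ 2 ^ Module.finrank ℝ E * ∫⁻ x, dens K φ x := by
  set f := dens K φ with hf
  have hfm : Measurable f := measurable_dens hK hφ
  set I := ∫⁻ x, f x with hI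
  have hIt : I ≠ ⊤ := lintegral_dens_ne_top hK hφ
  set n := Module.finrank ℝ E
  have h1 : ∀ a : E, 2 ^ n * ∫⁻ x, f ((2 : ℝ) • x - a) = I := by
    intro a
    have hm : Measurable fun y => f (y - a) := hfm.comp (measurable_sub_const a)
    have := lintegral_map (μ := (volume : Measure E)) hm (measurable_const_smul (2 : ℝ))
    rw [Measure.map_addHaar_smul _ (two_ne_zero), lintegral_smul_measure,
      lintegral_sub_right_eq_self f a] at this
    rw [← this, smul_eq_mul, ← mul_assoc, abs_of_pos (by positivity),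
      ENNReal.ofReal_inv_of_pos (by positivity), ENNReal.ofReal_pow (by norm_num),
      ENNReal.ofReal_ofNat, ENNReal.mul_inv_cancel (by positivity) (by finiteness), one_mul]
  have h2 : ∀ z, W z * I ≤ 2 ^ n * ∫⁻ x, f x * f (x - z) := by
    intro z
    rcases hWle z with a4 | ⟨a, ha, b, hb, hab, hle⟩
    · rw [a4, zero_mul]; exact zero_le
    rw [← h1 a, mul_left_comm]
    refine mul_le_mul' le_rfl ?_
    rw [← lintegral_const_mul' _ _ (ne_top_of_le_ne_top ENNReal.ofReal_ne_top hle)]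
    refine lintegral_mono fun x => ?_
    by_cases hy : (2 : ℝ) • x - a ∈ K
    · have e1 : x = (1 / 2 : ℝ) • a + (1 / 2 : ℝ) • ((2 : ℝ) • x - a) := by module
      have e2 : x - z = (1 / 2 : ℝ) • b + (1 / 2 : ℝ) • ((2 : ℝ) • x - a) := by
        have : b = a - (2 : ℝ) • z := by rw [← hab]; abel
        rw [this]; module
      have c1 := hφc.2 ha hy (by norm_num : (0 : ℝ) ≤ 1 / 2) (by norm_num : (0 : ℝ) ≤ 1 / 2)
        (by norm_num)
      have c2 := hφc.2 hb hy (by norm_num : (0 : ℝ) ≤ 1 / 2) (by norm_num : (0 : ℝ) ≤ 1 / 2)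
        (by norm_num)
      have m1 := hKc ha hy (by norm_num : (0 : ℝ) ≤ 1 / 2) (by norm_num : (0 : ℝ) ≤ 1 / 2)
        (by norm_num)
      have m2 := hKc hb hy (by norm_num : (0 : ℝ) ≤ 1 / 2) (by norm_num : (0 : ℝ) ≤ 1 / 2)
        (by norm_num)
      rw [← e1] at c1 m1
      rw [← e2] at c2 m2
      refine (mul_le_mul' hle le_rfl).trans ?_
      simp only [hf]
      rw [dens_of_mem hy, dens_of_mem m1, dens_of_mem m2, ← ENNReal.ofReal_mul (by positivity),
        ← ENNReal.ofReal_mul (by positivity), ← Real.exp_add, ← Real.exp_add]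
      refine ENNReal.ofReal_le_ofReal (Real.exp_le_exp.2 ?_)
      simp only [smul_eq_mul] at c1 c2
      linarith
    · have : f ((2 : ℝ) • x - a) = 0 := indicator_of_notMem hy _
      rw [this, mul_zero]; exact zero_le
  have h3 : ∫⁻ z, ∫⁻ x, f x * f (x - z) = I * I := by
    rw [lintegral_lintegral_swap (Measurable.aemeasurable
      ((hfm.comp measurable_snd).mul (hfm.comp (measurable_snd.sub measurable_fst))))]
    have : ∀ x, ∫⁻ z, f x * f (x - z) = f x * I := fun x => by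
      rw [lintegral_const_mul (f := fun z => f (x - z)) _ (hfm.comp (measurable_const_sub x)),
        lintegral_sub_left_eq_self]
    simp_rw [this]
    rw [lintegral_mul_const _ hfm]
  have h4 : (∫⁻ z, W z) * I ≤ 2 ^ n * I * I := by
    rw [← lintegral_mul_const _ hW, mul_assoc, ← h3, ← lintegral_const_mul' _ _ (by finiteness)]
    exact lintegral_mono h2
  exact (ENNReal.mul_le_mul_iff_left hI0 hIt).1 h4

theorem product_bound {K : Set E} (hK : IsCompact K) (hKc : Convex ℝ K) (h0 : (0 : E) ∈ K)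
    {φ : E → ℝ} (hφc : ConvexOn ℝ K φ) (hφ : Continuous φ) {W : E → ℝ≥0∞} (hW : Measurable W)
    (hWle : ∀ z, W z = 0 ∨ ∃ a ∈ K, ∃ b ∈ K, a - b = (2 : ℝ) • z ∧
      W z ≤ ENNReal.ofReal (Real.exp (-(φ a + φ b) / 2))) (hI0 : ∫⁻ x, dens K φ x ≠ 0) :
    ENNReal.ofReal ((5 / 8 : ℝ) ^ Module.finrank ℝ E) * (∫⁻ z, W z) *
      (∫⁻ x in K ∩ -K, ENNReal.ofReal (Real.exp (-(φ x + φ (-x)) / 2))) ≤
      (∫⁻ x, dens K φ x) ^ 2 := by
  have h1 := key_lc hK hKc h0 hφc hφ hW hWle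
  have h2 := rogers_shephard hK hKc hφc hφ hW hWle hI0
  set n := Module.finrank ℝ E
  set A := ∫⁻ z, W z
  set Y := ∫⁻ x in K ∩ -K, ENNReal.ofReal (Real.exp (-(φ x + φ (-x)) / 2))
  set I := ∫⁻ x, dens K φ x
  set c := ENNReal.ofReal ((5 / 8 : ℝ) ^ n) with hc
  have e : ENNReal.ofReal ((3125 / 8192 : ℝ) ^ n) = c ^ 5 * (2 ^ n) ^ 2 := by
    have : (2 : ℝ≥0∞) ^ n = ENNReal.ofReal (2 ^ n) := by
      rw [ENNReal.ofReal_pow (by norm_num), ENNReal.ofReal_ofNat]
    rw [hc, this, ← ENNReal.ofReal_pow (by positivity), ← ENNReal.ofReal_pow (by positivity),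
      ← ENNReal.ofReal_mul (by positivity), ← pow_mul, ← pow_mul, mul_comm n 5, mul_comm n 2,
      pow_mul, pow_mul, ← mul_pow]
    norm_num
  rw [e] at h1
  refine (ENNReal.pow_le_pow_left_iff (by norm_num : (5 : ℕ) ≠ 0)).1 ?_
  refine (ENNReal.mul_le_mul_iff_right (a := (2 ^ n) ^ 2) (by positivity) (by finiteness)).1 ?_
  calc (2 ^ n) ^ 2 * (c * A * Y) ^ 5 = (c ^ 5 * (2 ^ n) ^ 2 * A ^ 3 * Y ^ 5) * A ^ 2 := by ring
    _ ≤ I ^ 8 * (2 ^ n * I) ^ 2 := by gcongr
    _ = (2 ^ n) ^ 2 * (I ^ 2) ^ 5 := by ring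

end Pool.Agent.MP_5f4cdd_gt.T4

end
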