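import Pool.Agent.Mg.F5f4cdda.G2bbdb0
import Pool.Agent.Mg.F5f4cdda.Geab4d5

section

set_option autoImplicit false
set_option linter.unusedSectionVars false
open Set Filter Topology MeasureTheory Metric
open scoped RealInnerProductSpace NNReal ENNReal Pointwise

namespace Pool.Agent.MP_5f4cdd_gt.T4

variable {E : Type*} [NormedAddCommGroup E] [InnerProductSpace ℝ E] [FiniteDimensional ℝ E]
  [MeasurableSpace E] [BorelSpace E]

/-- support function -/
noncomputable def supp (K : Set E) : E → ℝ := lconj K fun _ => 0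

section supp

variable {K : Set E}

theorem supp_attained (hK : IsCompact K) (hne : K.Nonempty) (y : E) :
    ∃ x ∈ K, supp K y = ⟪x, y⟫ := by
  simpa [supp] using lconj_attained hK hne (ψ := fun _ => 0) continuous_const y

theorem le_supp (hK : IsCompact K) (y : E) {x : E} (hx : x ∈ K) : ⟪x, y⟫ ≤ supp K y := by
  simpa [supp] using le_lconj hK (ψ := fun _ => 0) continuous_const y hx

theorem supp_continuous (hK : IsCompact K) (hne : K.Nonempty) : Continuous (supp K) :=
  lconj_continuous hK hne continuous_const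

theorem supp_convex (hK : IsCompact K) (hne : K.Nonempty) : ConvexOn ℝ univ (supp K) :=
  lconj_convex hK hne continuous_const

theorem supp_smul (hK : IsCompact K) (hne : K.Nonempty) {c : ℝ} (hc : 0 ≤ c) (y : E) :
    supp K (c • y) = c * supp K y := by
  obtain ⟨x, hx, h1⟩ := supp_attained hK hne (c • y)
  obtain ⟨x', hx', h2⟩ := supp_attained hK hne y
  have h3 := le_supp hK y hx
  have h4 := le_supp hK (c • y) hx'
  rw [inner_smul_right] at h1 h4
  refine le_antisymm ?_ (by rw [h2]; exact h4)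
  rw [h1]; exact mul_le_mul_of_nonneg_left h3 hc

theorem supp_add (hK : IsCompact K) (hne : K.Nonempty) (y y' : E) :
    supp K (y + y') ≤ supp K y + supp K y' := by
  obtain ⟨x, hx, h1⟩ := supp_attained hK hne (y + y')
  rw [h1, inner_add_right]
  exact add_le_add (le_supp hK y hx) (le_supp hK y' hx)

theorem supp_le_norm (hK : IsCompact K) (hne : K.Nonempty) {R : ℝ} (hR : ∀ x ∈ K, ‖x‖ ≤ R)
    (y : E) : supp K y ≤ R * ‖y‖ := by
  obtain ⟨x, hx, h1⟩ := supp_attained hK hne y
  rw [h1]
  exact (real_inner_le_norm x y).trans (mul_le_mul_of_nonneg_right (hR x hx) (norm_nonneg _))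

theorem norm_le_supp (hK : IsCompact K) {ρ : ℝ} (hρ : 0 < ρ) (hball : closedBall 0 ρ ⊆ K)
    (y : E) : ρ * ‖y‖ ≤ supp K y := by
  have hx : (ρ / ‖y‖) • y ∈ K := hball (by
    rw [mem_closedBall_zero_iff, norm_smul, Real.norm_eq_abs, abs_of_nonneg (by positivity)]
    rcases eq_or_ne ‖y‖ 0 with h0 | h0
    · rw [h0, mul_zero]; exact hρ.le
    · rw [div_mul_cancel₀ _ h0])
  have := le_supp hK y hx
  rw [inner_smul_left, real_inner_self_eq_norm_sq] at this
  simp only [conj_trivial] at this
  have e : ρ / ‖y‖ * ‖y‖ ^ 2 = ρ * ‖y‖ := by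
    rcases eq_or_ne ‖y‖ 0 with h0 | h0
    · simp [h0]
    · field_simp
  linarith

theorem mem_of_le_supp (hK : IsCompact K) (hKc : Convex ℝ K) (hne : K.Nonempty) {x : E}
    (h : ∀ y, ⟪x, y⟫ ≤ supp K y) : x ∈ K := by
  obtain ⟨a, ha⟩ := exists_isProx (v := fun _ => 0) hK hne (convexOn_const 0 hKc)
    continuousOn_const
  obtain ⟨x', hx', h1⟩ := supp_attained hK hne (x - a x)
  have h2 := (ha x).2 x' hx'
  have h3 := h (x - a x)
  rw [inner_sub_left] at h2
  have h4 : ‖x - a x‖ ^ 2 ≤ 0 := by
    rw [← real_inner_self_eq_norm_sq, inner_sub_left]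
    linarith
  have h5 : x - a x = 0 := by
    have : ‖x - a x‖ ^ 2 = 0 := le_antisymm h4 (by positivity)
    simpa using this
  rw [sub_eq_zero.1 h5]
  exact ha.mem x

theorem exists_infconv (hK : IsCompact K) (hKc : Convex ℝ K) {ρ : ℝ} (hρ : 0 < ρ)
    (hball : closedBall 0 ρ ⊆ K) : ∃ p : E → ℝ, Continuous p ∧ (∀ y, p y ≤ supp K y) ∧
      (∀ y, ∃ a, p y = (supp K a + supp K (a - (2 : ℝ) • y)) / 2) ∧
      ∀ y, ∃ x ∈ K ∩ -K, p y ≤ ⟪x, y⟫ := by
  have hne : K.Nonempty := ⟨0, hball (mem_closedBall_self hρ.le)⟩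
  have hc := supp_continuous hK hne
  have hnn : ∀ y, 0 ≤ supp K y := fun y => le_trans (by positivity) (norm_le_supp hK hρ hball y)
  have h00 : supp K 0 = 0 := by simpa using supp_smul hK hne le_rfl (0 : E)
  have hex : ∀ y : E, ∃ a, ∀ a', supp K a + supp K (a - (2 : ℝ) • y) ≤
      supp K a' + supp K (a' - (2 : ℝ) • y) := by
    intro y
    refine Continuous.exists_forall_le_of_isBounded
      (f := fun a => supp K a + supp K (a - (2 : ℝ) • y)) (by fun_prop) 0 ?_
    refine (isBounded_closedBall (x := (0 : E))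
      (r := (supp K 0 + supp K (0 - (2 : ℝ) • y)) / ρ)).subset fun a ha => ?_
    rw [mem_closedBall_zero_iff, le_div_iff₀ hρ]
    have : supp K a + supp K (a - (2 : ℝ) • y) ≤ supp K 0 + supp K (0 - (2 : ℝ) • y) := ha
    linarith [norm_le_supp hK hρ hball a, hnn (a - (2 : ℝ) • y)]
  choose A hA using hex
  set p : E → ℝ := fun y => (supp K (A y) + supp K (A y - (2 : ℝ) • y)) / 2 with hp
  have hle : ∀ y a, p y ≤ (supp K a + supp K (a - (2 : ℝ) • y)) / 2 := fun y a => by
    simp only [hp]; linarith [hA y a]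
  have hp0 : ∀ y, 0 ≤ p y := fun y => by
    simp only [hp]; linarith [hnn (A y), hnn (A y - (2 : ℝ) • y)]
  have hp1 : ∀ y, p y ≤ supp K y := fun y => by
    have := hle y ((2 : ℝ) • y)
    rw [sub_self, h00, supp_smul hK hne (by norm_num)] at this
    linarith
  have hp2 : ∀ y, p y ≤ supp K (-y) := fun y => by
    have := hle y 0
    rw [zero_sub, h00, ← smul_neg, supp_smul hK hne (by norm_num)] at this
    linarith
  have hsm : ∀ c : ℝ, 0 < c → ∀ y, p (c • y) ≤ c * p y := fun c hc y => by
    have := hle (c • y) (c • A y)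
    rw [smul_comm (2 : ℝ) c y, ← smul_sub, supp_smul hK hne hc.le, supp_smul hK hne hc.le] at this
    simp only [hp] at this ⊢
    linarith
  have hhom : ∀ c : ℝ, 0 < c → ∀ y, p (c • y) = c * p y := fun c hc y => by
    refine le_antisymm (hsm c hc y) ?_
    have := hsm c⁻¹ (inv_pos.2 hc) (c • y)
    rw [smul_smul, inv_mul_cancel₀ hc.ne', one_smul] at this
    have := mul_le_mul_of_nonneg_left this hc.le
    rwa [← mul_assoc, mul_inv_cancel₀ hc.ne', one_mul] at this
  have hadd : ∀ y y', p (y + y') ≤ p y + p y' := fun y y' => by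
    have := hle (y + y') (A y + A y')
    have e : A y + A y' - (2 : ℝ) • (y + y') = (A y - (2 : ℝ) • y) + (A y' - (2 : ℝ) • y') := by
      module
    rw [e] at this
    have a1 := supp_add hK hne (A y) (A y')
    have a2 := supp_add hK hne (A y - (2 : ℝ) • y) (A y' - (2 : ℝ) • y')
    simp only [hp] at this ⊢
    linarith
  obtain ⟨R, hR⟩ := hK.isBounded.exists_norm_le
  refine ⟨p, ?_, hp1, fun y => ⟨A y, rfl⟩, fun y => ?_⟩
  · refine (LipschitzWith.of_le_add_mul R.toNNReal fun y y' => ?_).continuous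
    have a1 := hadd y' (y - y')
    have a2 := supp_le_norm hK hne (R := R.toNNReal)
      (fun x hx => (hR x hx).trans (Real.le_coe_toNNReal R)) (y - y')
    rw [add_sub_cancel] at a1
    rw [dist_eq_norm]
    linarith [hp1 (y - y')]
  · rcases eq_or_ne y 0 with rfl | hy
    · exact ⟨0, ⟨hball (mem_closedBall_self hρ.le), by simpa using hball (mem_closedBall_self hρ.le)⟩,
        by simpa [h00] using hp1 0⟩
    obtain ⟨g, hg1, hg2⟩ := exists_extension_of_le_sublinear
      (LinearPMap.mkSpanSingleton y (p y) hy) p hhom hadd (by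
        rintro ⟨x, hx⟩
        obtain ⟨c, rfl⟩ := Submodule.mem_span_singleton.1 hx
        rw [LinearPMap.mkSpanSingleton'_apply]
        simp only [RingHom.id_apply, smul_eq_mul]
        rcases lt_or_ge 0 c with hc | hc
        · rw [hhom c hc]
        · exact (mul_nonpos_of_nonpos_of_nonneg hc (hp0 y)).trans (hp0 _))
    set x := (InnerProductSpace.toDual ℝ E).symm (LinearMap.toContinuousLinearMap g) with hx
    have hxg : ∀ z, ⟪x, z⟫ = g z := fun z => by simp [hx]
    refine ⟨x, ⟨mem_of_le_supp hK hKc hne fun z => ?_, mem_of_le_supp hK hKc hne fun z => ?_⟩, ?_⟩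
    · rw [hxg]; exact (hg2 z).trans (hp1 z)
    · rw [inner_neg_left, ← inner_neg_right, hxg]
      simpa using (hg2 (-z)).trans (hp2 (-z))
    · rw [hxg]
      have := hg1 ⟨y, Submodule.mem_span_singleton_self y⟩
      rw [LinearPMap.mkSpanSingleton_apply] at this
      exact this.ge

end supp

theorem lintegral_eq_iSup_ball (F : E → ℝ≥0∞) :
    ∫⁻ y, F y = ⨆ m : ℕ, ∫⁻ y in closedBall 0 m, F y := by
  have hmono : Monotone fun m : ℕ => closedBall (0 : E) m := fun a b hab =>
    closedBall_subset_closedBall (by exact_mod_cast hab)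
  rw [← setLIntegral_iUnion_of_directed _ hmono.directed_le, iUnion_closedBall_nat,
    Measure.restrict_univ]

theorem mahler_of_ball {K : Set E} (hK : IsCompact K) (hKc : Convex ℝ K) {ρ : ℝ} (hρ : 0 < ρ)
    (hball : closedBall 0 ρ ⊆ K) :
    ENNReal.ofReal ((5 * Real.pi / 8) ^ Module.finrank ℝ E) ≤
      volume K * ∫⁻ y, ENNReal.ofReal (Real.exp (-supp K y)) := by
  have h0 : (0 : E) ∈ K := hball (mem_closedBall_self hρ.le)
  have hne : K.Nonempty := ⟨0, h0⟩
  have hc := supp_continuous hK hne
  obtain ⟨p, hpc, hp1, hp2, hp3⟩ := exists_infconv hK hKc hρ hball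
  obtain ⟨R, hR⟩ := hK.isBounded.exists_norm_le
  set n := Module.finrank ℝ E
  set c := ENNReal.ofReal ((5 / 8 : ℝ) ^ n) with hcd
  set D := (1 / 2 : ℝ) • (K - K) with hD
  have hDc : IsCompact D := by
    have : IsCompact (K - K) := by rw [sub_eq_add_neg]; exact hK.add hK.neg
    exact this.smul _
  have hd0 : ∀ L : Set E, MeasurableSet L → ∫⁻ x, dens L (fun _ => 0) x = volume L := by
    intro L hL
    rw [dens, lintegral_indicator hL]; simp
  have hKpos : volume K ≠ 0 :=
    ((measure_closedBall_pos volume 0 hρ).trans_le (measure_mono hball)).ne'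
  have P1 : c * volume D * volume (K ∩ -K) ≤ volume K ^ 2 := by
    have := product_bound hK hKc h0 (φ := fun _ => 0) (convexOn_const 0 hKc) continuous_const
      (W := D.indicator 1) (measurable_one.indicator hDc.measurableSet) (fun z => by
        by_cases hz : z ∈ D
        · obtain ⟨_, ⟨a, ha, b, hb, rfl⟩, rfl⟩ := hz
          refine Or.inr ⟨a, ha, b, hb, by simp [smul_smul], ?_⟩
          simpa using indicator_le_self (D) (1 : E → ℝ≥0∞) _
        · exact Or.inl (indicator_of_notMem hz _)) (by rwa [hd0 K hK.measurableSet])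
    simpa [hd0 K hK.measurableSet, lintegral_indicator_one hDc.measurableSet] using this
  set J := ∫⁻ y, ENNReal.ofReal (Real.exp (-supp K y)) with hJ
  set A := ∫⁻ y, ENNReal.ofReal (Real.exp (-p y)) with hA
  set Y := ∫⁻ y, ENNReal.ofReal (Real.exp (-((supp K y + supp K (-y)) / 2))) with hY
  have P2 : c * A * Y ≤ J ^ 2 := by
    rw [hA, hY, lintegral_eq_iSup_ball, lintegral_eq_iSup_ball
      (fun y => ENNReal.ofReal (Real.exp (-((supp K y + supp K (-y)) / 2))))]
    simp only [ENNReal.mul_iSup, ENNReal.iSup_mul]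
    refine iSup_le fun m' => iSup_le fun m => ?_
    set R' : ℝ := 2 * R * m / ρ + 2 * m + m' + 1 with hR'
    have hR0 : 0 ≤ R := (norm_nonneg _).trans (hR 0 h0)
    have hq : 0 ≤ 2 * R * m / ρ := by positivity
    have hm0 : (0 : ℝ) ≤ m := by positivity
    have hm0' : (0 : ℝ) ≤ m' := by positivity
    have hBc : IsCompact (closedBall (0 : E) R') := isCompact_closedBall _ _
    have hdle : ∫⁻ x, dens (closedBall 0 R') (supp K) x ≤ J :=
      lintegral_mono fun x => indicator_le_self _ _ _
    have := product_bound hBc (convex_closedBall _ _) (mem_closedBall_self (by positivity))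
      ((supp_convex hK hne).subset (subset_univ _) (convex_closedBall _ _)) hc
      (W := (closedBall 0 m).indicator fun y => ENNReal.ofReal (Real.exp (-p y)))
      (Measurable.indicator (by fun_prop) measurableSet_closedBall) (fun z => by
        by_cases hz : z ∈ closedBall (0 : E) m
        · obtain ⟨a, ha⟩ := hp2 z
          have z1 : ‖z‖ ≤ m := mem_closedBall_zero_iff.1 hz
          have a1 := norm_le_supp hK hρ hball a
          have a2 := norm_le_supp hK hρ hball (a - (2 : ℝ) • z)
          have a3 := hp1 z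
          have a4 := supp_le_norm hK hne hR z
          have a5 : R * ‖z‖ ≤ R * m := mul_le_mul_of_nonneg_left z1 hR0
          have a6 : 0 ≤ ρ * ‖a‖ := by positivity
          have a7 : 0 ≤ ρ * ‖a - (2 : ℝ) • z‖ := by positivity
          have b1 : ‖a‖ ≤ 2 * R * m / ρ := by rw [le_div_iff₀ hρ]; linarith
          have b2 : ‖a - (2 : ℝ) • z‖ ≤ 2 * R * m / ρ := by rw [le_div_iff₀ hρ]; linarith
          refine Or.inr ⟨a, mem_closedBall_zero_iff.2 (by linarith), a - (2 : ℝ) • z,
            mem_closedBall_zero_iff.2 (by linarith), by abel, ?_⟩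
          rw [indicator_of_mem hz, ha, neg_div]
        · exact Or.inl (indicator_of_notMem hz _)) (by
          rw [dens, lintegral_indicator measurableSet_closedBall]
          refine ((setLIntegral_pos_iff (by fun_prop)).2 ?_).ne'
          have : (Function.support fun x => ENNReal.ofReal (Real.exp (-supp K x))) = univ := by
            ext x; simp [Real.exp_pos]
          rw [this, univ_inter]
          exact measure_closedBall_pos volume 0 (by positivity))
    rw [lintegral_indicator measurableSet_closedBall] at this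
    refine le_trans ?_ (this.trans (pow_le_pow_left' hdle 2))
    refine mul_le_mul' le_rfl ?_
    simp only [neg_div]
    refine lintegral_mono_set fun x hx => ?_
    rw [mem_closedBall_zero_iff] at hx
    exact ⟨mem_closedBall_zero_iff.2 (by linarith),
      mem_neg.2 (mem_closedBall_zero_iff.2 (by rw [norm_neg]; linarith))⟩
  have K1 : ENNReal.ofReal (Real.pi ^ n) ≤ volume D * Y := by
    refine kuperberg hDc ((hKc.sub hKc).smul _) ?_ hρ (fun x hx => ?_) (by fun_prop) fun y => ?_
    · rintro _ ⟨_, ⟨a, ha, b, hb, rfl⟩, rfl⟩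
      exact ⟨b - a, ⟨b, hb, a, ha, rfl⟩, by simp only; module⟩
    · exact ⟨x - -x, ⟨x, hball hx, -x, hball (by simpa using hx), rfl⟩, by simp only; module⟩
    · obtain ⟨a, ha, h1⟩ := supp_attained hK hne y
      obtain ⟨b, hb, h2⟩ := supp_attained hK hne (-y)
      refine ⟨(1 / 2 : ℝ) • (a - b), ⟨a - b, ⟨a, ha, b, hb, rfl⟩, rfl⟩, ?_⟩
      rw [h1, h2, inner_smul_left, inner_sub_left, inner_neg_right]
      simp only [conj_trivial]
      linarith
  have K2 : ENNReal.ofReal (Real.pi ^ n) ≤ volume (K ∩ -K) * A :=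
    kuperberg (hK.inter hK.neg) (hKc.inter hKc.neg)
      (fun x hx => ⟨hx.2, by simpa using hx.1⟩) hρ
      (fun x hx => ⟨hball hx, hball (by simpa using hx)⟩) hpc.measurable hp3
  have e : ENNReal.ofReal ((5 * Real.pi / 8) ^ n) = c * ENNReal.ofReal (Real.pi ^ n) := by
    rw [hcd, ← ENNReal.ofReal_mul (by positivity), ← mul_pow]
    congr 2; ring
  rw [e]
  refine (ENNReal.pow_le_pow_left_iff (by norm_num : (2 : ℕ) ≠ 0)).1 ?_
  calc (c * ENNReal.ofReal (Real.pi ^ n)) ^ 2
      = c * c * ENNReal.ofReal (Real.pi ^ n) * ENNReal.ofReal (Real.pi ^ n) := by ring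
    _ ≤ c * c * (volume D * Y) * (volume (K ∩ -K) * A) := by gcongr
    _ = (c * volume D * volume (K ∩ -K)) * (c * A * Y) := by ring
    _ ≤ volume K ^ 2 * J ^ 2 := mul_le_mul' P1 P2
    _ = (volume K * J) ^ 2 := by ring

theorem lintegral_eq_top_of_notMem {K : Set E} (hK : IsCompact K) (hKc : Convex ℝ K)
    (hi : (interior K).Nonempty) (h0 : (0 : E) ∉ interior K) :
    ∫⁻ y, ENNReal.ofReal (Real.exp (-supp K y)) = ⊤ := by
  have hne : K.Nonempty := hi.mono interior_subset
  obtain ⟨f, hf⟩ := geometric_hahn_banach_open_point hKc.interior isOpen_interior h0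
  rw [map_zero] at hf
  set u := (InnerProductSpace.toDual ℝ E).symm f with hu
  have hfu : ∀ x, ⟪x, u⟫ = f x := fun x => by rw [real_inner_comm]; simp [hu]
  have hu0 : u ≠ 0 := by
    obtain ⟨x, hx⟩ := hi
    intro h
    have := hf x hx
    rw [← hfu, h, inner_zero_right] at this
    exact lt_irrefl _ this
  have hK0 : ∀ x ∈ K, ⟪x, u⟫ ≤ 0 := by
    intro x hx
    have h1 : x ∈ closure (interior K) := by
      rw [hKc.closure_interior_eq_closure_of_nonempty_interior hi]; exact subset_closure hx
    rw [hfu]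
    exact closure_minimal (t := {x | f x ≤ 0}) (fun x hx => (hf x hx).le)
      (isClosed_le f.continuous continuous_const) h1
  obtain ⟨R, hR⟩ := hK.isBounded.exists_norm_le
  have hun : 0 < ‖u‖ := norm_pos_iff.2 hu0
  set B : ℕ → Set E := fun k => ball ((2 * k / ‖u‖) • u) 1 with hB
  have hdisj : Pairwise (Function.onFun Disjoint B) := by
    intro k l hkl
    refine ball_disjoint_ball ?_
    rw [dist_eq_norm, ← sub_smul, norm_smul, ← sub_div, Real.norm_eq_abs, abs_div,
      abs_of_pos hun, div_mul_cancel₀ _ hun.ne', ← mul_sub, abs_mul]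
    have : (1 : ℝ) ≤ |(k : ℝ) - l| := by
      have : (1 : ℤ) ≤ |(k : ℤ) - l| := Int.one_le_abs (sub_ne_zero.2 (by exact_mod_cast hkl))
      exact_mod_cast this
    rw [abs_two]; linarith
  have hvol : volume (⋃ k, B k) = ⊤ := by
    rw [measure_iUnion hdisj fun k => measurableSet_ball]
    simp only [hB, Measure.addHaar_ball_center]
    exact ENNReal.tsum_const_eq_top_of_ne_zero (measure_ball_pos volume 0 one_pos).ne'
  refine top_le_iff.1 ?_
  calc ⊤ = ∫⁻ _ in ⋃ k, B k, ENNReal.ofReal (Real.exp (-|R|)) := by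
        rw [setLIntegral_const, hvol, ENNReal.mul_top (by simp [Real.exp_pos])]
    _ ≤ ∫⁻ y in ⋃ k, B k, ENNReal.ofReal (Real.exp (-supp K y)) := by
        refine setLIntegral_mono' (MeasurableSet.iUnion fun k => measurableSet_ball)
          fun y hy => ENNReal.ofReal_le_ofReal (Real.exp_le_exp.2 (neg_le_neg ?_))
        obtain ⟨k, hk⟩ := mem_iUnion.1 hy
        rw [hB, mem_ball, dist_eq_norm] at hk
        obtain ⟨x, hx, h1⟩ := supp_attained hK hne y
        have e : y = (y - (2 * k / ‖u‖) • u) + (2 * k / ‖u‖) • u := by abel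
        rw [h1, e, inner_add_right, inner_smul_right]
        have a1 : 2 * k / ‖u‖ * ⟪x, u⟫ ≤ 0 :=
          mul_nonpos_of_nonneg_of_nonpos (by positivity) (hK0 x hx)
        have a2 := real_inner_le_norm x (y - (2 * k / ‖u‖) • u)
        have a3 : ‖x‖ * ‖y - (2 * k / ‖u‖) • u‖ ≤ |R| * 1 :=
          mul_le_mul ((hR x hx).trans (le_abs_self R)) hk.le (norm_nonneg _) (abs_nonneg _)
        linarith
    _ ≤ _ := setLIntegral_le_lintegral _ _

theorem mahler_bound {K : Set E} (hK : IsCompact K) (hKc : Convex ℝ K)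
    (hi : (interior K).Nonempty) :
    ENNReal.ofReal ((5 * Real.pi / 8) ^ Module.finrank ℝ E) ≤
      volume K * ∫⁻ y, ENNReal.ofReal (Real.exp (-supp K y)) := by
  by_cases h0 : (0 : E) ∈ interior K
  · obtain ⟨ρ, hρ, hball⟩ := Metric.nhds_basis_closedBall.mem_iff.1 (mem_interior_iff_mem_nhds.1 h0)
    exact mahler_of_ball hK hKc hρ hball
  · rw [lintegral_eq_top_of_notMem hK hKc hi h0,
      ENNReal.mul_top (Measure.measure_pos_of_nonempty_interior _ hi).ne']
    exact le_top

end Pool.Agent.MP_5f4cdd_gt.T4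

end

section

set_option autoImplicit false
open Set Filter Topology MeasureTheory Metric
open scoped RealInnerProductSpace NNReal ENNReal

namespace Pool.Agent.MP_5f4cdd_gt.T4

theorem mahler_inf_pi (n : ℕ) (K : Set (Fin n → ℝ)) (hc : Convex ℝ K) (hK : IsCompact K)
    (hi : (interior K).Nonempty) :
    ENNReal.ofReal ((5 * Real.pi / 8) ^ n) ≤ volume K * ∫⁻ y : Fin n → ℝ, ENNReal.ofReal
      (Real.exp (-(sSup ((fun x : Fin n → ℝ => ∑ i, x i * y i) '' K)))) := by
  set e := EuclideanSpace.equiv (Fin n) ℝ with he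
  have hmp : MeasurePreserving e := PiLp.volume_preserving_ofLp (Fin n)
  have hemb : MeasurableEmbedding e := e.toHomeomorph.measurableEmbedding
  have h1 : IsCompact (e ⁻¹' K) := e.toHomeomorph.isCompact_preimage.2 hK
  have h2 : Convex ℝ (e ⁻¹' K) := hc.linear_preimage (e : EuclideanSpace ℝ (Fin n) →ₗ[ℝ] _)
  have h3 : (interior (e ⁻¹' K)).Nonempty := by
    have := e.toHomeomorph.preimage_interior K
    simp only [ContinuousLinearEquiv.coe_toHomeomorph] at this
    rw [← this]
    exact hi.preimage e.surjective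
  have h4 := mahler_bound h1 h2 h3
  rw [finrank_euclideanSpace_fin, hmp.measure_preimage hK.measurableSet.nullMeasurableSet] at h4
  rw [← hmp.lintegral_comp_emb hemb]
  refine h4.trans (le_of_eq ?_)
  congr 1
  refine lintegral_congr fun y => ?_
  congr 3
  unfold supp lconj
  congr 1
  ext t
  constructor
  · rintro ⟨x, hx, rfl⟩
    exact ⟨e x, hx, by simp [he, PiLp.inner_apply, mul_comm]⟩
  · rintro ⟨x, hx, rfl⟩
    exact ⟨e.symm x, by simpa using hx, by simp [he, PiLp.inner_apply, mul_comm]⟩

theorem mahler_p_ge (n : ℕ) (K : Set (Fin n → ℝ)) (hK : IsCompact K)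
    (hi : (interior K).Nonempty) {p : ℝ} (hp : 0 < p) (y : Fin n → ℝ) :
    Real.exp (-(sSup ((fun x : Fin n → ℝ => ∑ i, x i * y i) '' K))) ≤
      ((∫ x in K, Real.exp (p * ∑ i, x i * y i)) / (volume K).toReal) ^ (-(1 / p)) := by
  set h := sSup ((fun x : Fin n → ℝ => ∑ i, x i * y i) '' K) with hh
  have hV0 : 0 < volume K := Measure.measure_pos_of_nonempty_interior _ hi
  have hVt : volume K ≠ ⊤ := hK.measure_lt_top.ne
  have hV : 0 < (volume K).toReal := ENNReal.toReal_pos hV0.ne' hVt
  have hcont : Continuous fun x : Fin n → ℝ => Real.exp (p * ∑ i, x i * y i) := by fun_prop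
  have hint := hcont.continuousOn.integrableOn_compact (μ := volume) hK
  have hpos : 0 < ∫ x in K, Real.exp (p * ∑ i, x i * y i) := by
    rw [setIntegral_pos_iff_support_of_nonneg_ae
      (Eventually.of_forall fun x => (Real.exp_pos _).le) hint]
    have : (Function.support fun x : Fin n → ℝ => Real.exp (p * ∑ i, x i * y i)) = univ := by
      ext x; simp
    rwa [this, univ_inter]
  have hle : (∫ x in K, Real.exp (p * ∑ i, x i * y i)) / (volume K).toReal ≤ Real.exp (p * h) := by
    rw [div_le_iff₀ hV]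
    have : ∫ x in K, Real.exp (p * ∑ i, x i * y i) ≤ ∫ _ in K, Real.exp (p * h) := by
      refine setIntegral_mono_on hint (integrableOn_const hVt) hK.measurableSet fun x hx => ?_
      refine Real.exp_le_exp.2 (mul_le_mul_of_nonneg_left ?_ hp.le)
      exact le_csSup (hK.bddAbove_image (Continuous.continuousOn (by fun_prop)))
        (mem_image_of_mem _ hx)
    rwa [setIntegral_const, smul_eq_mul, mul_comm] at this
  have := Real.rpow_le_rpow_of_nonpos (div_pos hpos hV) hle
    (by rw [neg_nonpos]; positivity : -(1 / p) ≤ 0)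
  rwa [← Real.exp_mul, show p * h * -(1 / p) = -h by field_simp] at this

end Pool.Agent.MP_5f4cdd_gt.T4

end
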